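import Pool.Agent.helper40.FR.Defs

/-!
# Transport of `γ : 𝔭^j ∧ 𝔭^j → 𝔭^(2j+1)` to a bracket on `𝒪`
-/

namespace Pool.Agent.helper40.FR

open Polynomial Finset Pool.Agent.helper40.Laz

variable {p : ℕ} [hp : Fact p.Prime]

/-- A `P`-equivariant alternating bilinear bracket `𝒪 × 𝒪 → 𝔭^r`, not into `𝔭^(r+1)`. -/
structure BB (p : ℕ) [Fact p.Prime] (r : ℕ) where
  /-- the bracket -/
  b : OO p →ₗ[ℤ_[p]] OO p →ₗ[ℤ_[p]] OO p
  alt : ∀ x, b x x = 0
  equi : ∀ x y, b (th p * x) (th p * y) = th p * b x y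
  dvd : ∀ x y, pi p ^ r ∣ b x y
  full : ∃ x y, ¬ pi p ^ (r + 1) ∣ b x y

variable {r : ℕ}

/-- The Jacobi sum. -/
noncomputable def BB.jac (β : BB p r) (x y z : OO p) : OO p :=
  β.b (β.b x y) z + β.b (β.b y z) x + β.b (β.b z x) y

theorem BB.skew (β : BB p r) (x y : OO p) : β.b x y = -β.b y x := by
  have h := β.alt (x + y)
  simp only [map_add, LinearMap.add_apply, β.alt, zero_add, add_zero] at h
  exact eq_neg_of_add_eq_zero_right h

/-- `x = p^k w` if `π^(k(p-1)) ∣ x`. -/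
theorem exists_p_pow {k s : ℕ} {x : OO p} (h : pi p ^ (k * (p - 1) + s) ∣ x) :
    ∃ w : OO p, x = (p : ℤ_[p]) ^ k • w ∧ pi p ^ s ∣ w := by
  obtain ⟨ε, ⟨e, rfl⟩, _, hpε⟩ := exists_eps (p := p)
  obtain ⟨w, rfl⟩ := h
  refine ⟨pi p ^ s * (((e⁻¹ : (OO p)ˣ) : OO p) ^ k * w), ?_, dvd_mul_right _ _⟩
  have h5 : (e : OO p) ^ k * ((e⁻¹ : (OO p)ˣ) : OO p) ^ k = 1 := by
    rw [← mul_pow, Units.mul_inv, one_pow]
  rw [Algebra.smul_def, map_pow, map_natCast, hpε, mul_pow, ← pow_mul, mul_comm (p - 1) k]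
  calc pi p ^ (k * (p - 1) + s) * w =
      ((e : OO p) ^ k * ((e⁻¹ : (OO p)ˣ) : OO p) ^ k) * (pi p ^ (k * (p - 1) + s) * w) := by
        rw [h5, one_mul]
    _ = _ := by ring

theorem p_pow_smul (k : ℕ) (x : OO p) : (p : ℤ_[p]) ^ k • x = (p : OO p) ^ k * x := by
  rw [Algebra.smul_def, map_pow, map_natCast]

theorem pi_pow_dvd_p_pow (k : ℕ) : pi p ^ (k * (p - 1)) ∣ (p : OO p) ^ k := by
  obtain ⟨ε, _, _, hpε⟩ := exists_eps (p := p)
  rw [hpε, mul_pow, ← pow_mul, mul_comm (p - 1) k]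
  exact dvd_mul_left _ _

/-- `β(𝔭^(k(p-1)), 𝒪) ⊆ 𝔭^(k(p-1)+r)`. -/
theorem BB.dvd_of (β : BB p r) (k : ℕ) {x : OO p} (h : pi p ^ (k * (p - 1)) ∣ x) (y : OO p) :
    pi p ^ (k * (p - 1) + r) ∣ β.b x y := by
  obtain ⟨w, rfl, _⟩ := exists_p_pow (k := k) (s := 0) (x := x) h
  rw [map_smul, LinearMap.smul_apply, p_pow_smul, pow_add]
  exact mul_dvd_mul (pi_pow_dvd_p_pow k) (β.dvd w y)

/-- `β(𝔭^a, 𝒪) ⊆ 𝔭^(a+r+2-p)`. -/
theorem BB.dvd_of' (β : BB p r) {a : ℕ} {x : OO p} (h : pi p ^ a ∣ x) (y : OO p) :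
    pi p ^ (a + r + 2 - p) ∣ β.b x y := by
  have h2 := hp.out.two_le
  have h3 : a = (a / (p - 1)) * (p - 1) + a % (p - 1) := by
    rw [mul_comm]; exact (Nat.div_add_mod _ _).symm
  have h4 : a % (p - 1) < p - 1 := Nat.mod_lt _ (by omega)
  have h5 := β.dvd_of (a / (p - 1)) ((pow_dvd_pow _ (by omega)).trans h) y
  exact (pow_dvd_pow _ (by omega)).trans h5

theorem BB.ideal (β : BB p r) (hr : p ≤ r + 2) {n : ℕ} {x : OO p} (h : pi p ^ n ∣ x) (y : OO p) :
    pi p ^ n ∣ β.b x y := (pow_dvd_pow _ (by omega)).trans (β.dvd_of' h y)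

/-- The Lie ring `𝒪 / 𝔭^n` with bracket `β`. -/
noncomputable def BB.L (β : BB p r) (hr : p ≤ r + 2) (n : ℕ)
    (hJ : ∀ x y z, pi p ^ n ∣ β.jac x y z) : ELie p :=
  QData.toELie (M := OO p)
    { br := β.b
      N := PP p ^ n
      alt := β.alt
      equi := β.equi
      ideal := fun _ hx y => mem_PP_pow.2 (β.ideal hr (mem_PP_pow.1 hx) y)
      jac := fun x y z => mem_PP_pow.2 (hJ x y z) }

/-- The class of an element of `𝒪`. -/
noncomputable def BB.cl (β : BB p r) (hr : p ≤ r + 2) (n : ℕ)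
    (hJ : ∀ x y z, pi p ^ n ∣ β.jac x y z) : OO p →ₗ[ℤ_[p]] (β.L hr n hJ).L :=
  (PP p ^ n).mkQ.restrictScalars ℤ_[p]

section

variable (β : BB p r) (hr : p ≤ r + 2) (n : ℕ) (hJ : ∀ x y z, pi p ^ n ∣ β.jac x y z)

theorem BB.cl_surjective : Function.Surjective (β.cl hr n hJ) := by
  intro y
  obtain ⟨x, hx⟩ := Submodule.mkQ_surjective (PP p ^ n) y
  exact ⟨x, hx⟩

theorem BB.cl_eq_zero {x : OO p} : β.cl hr n hJ x = 0 ↔ pi p ^ n ∣ x := by
  rw [← mem_PP_pow]
  exact Submodule.Quotient.mk_eq_zero _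

theorem BB.cl_lie (x y : OO p) :
    ⁅β.cl hr n hJ x, β.cl hr n hJ y⁆ = β.cl hr n hJ (β.b x y) := rfl

theorem BB.cl_act (u : Pg p) (x : OO p) :
    (β.L hr n hJ).act u (β.cl hr n hJ x) = β.cl hr n hJ (((u : (OO p)ˣ) : OO p) * x) := rfl

theorem BB.card : Nat.card (β.L hr n hJ).L = p ^ n := card_quot n

end

/-! ## Isomorphisms of Lie rings with action -/

/-- An isomorphism of Lie rings with an action of `P`. -/
structure EIso (A B : ELie p) where
  /-- the isomorphism -/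
  e : A.L ≃ₗ⁅ℤ_[p]⁆ B.L
  comm : ∀ u x, e (A.act u x) = B.act u (e x)

theorem EIso.nil {A B : ELie p} (f : EIso A B) {c : ℕ} (h : A.Nil c) : B.Nil c := by
  unfold ELie.Nil at *
  rw [← LieIdeal.lowerCentralSeries_map_eq c (f := f.e.toLieHom) f.e.surjective, h]
  exact LieIdeal.map_eq_bot_iff.2 bot_le

/-- The isomorphism of groups. -/
noncomputable def EIso.G {A B : ELie p} (f : EIso A B) (hA : A.Nil (p - 1)) (hB : B.Nil (p - 1)) :
    A.G hA ≃* B.G hB where
  toFun x := B.toG hB (f.e (A.ofG hA x))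
  invFun x := A.toG hA (f.e.symm (B.ofG hB x))
  left_inv _ := f.e.symm_apply_apply _
  right_inv _ := f.e.apply_symm_apply _
  map_mul' x y := map_laz (lcsFil hA) (lcsFil_one hA) (lcsFil hB) (lcsFil_one hB)
    f.e.toLieHom x y

/-- The isomorphism of semidirect products. -/
noncomputable def EIso.S {A B : ELie p} (f : EIso A B) (hA : A.Nil (p - 1)) (hB : B.Nil (p - 1)) :
    A.S hA ≃* B.S hB :=
  SemidirectProduct.congr (f.G hA hB) (MulEquiv.refl _) (by
    intro u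
    ext x
    exact f.comm u x)

/-! ## Transport -/

section

variable {j : ℕ}

variable (p j) in
/-- Multiplication by `π^j`. -/
noncomputable def mulPi : OO p ≃ₗ[OO p] ↥(PP p ^ j) :=
  LinearEquiv.ofBijective
    ({ toFun := fun x => ⟨pi p ^ j * x, mem_PP_pow.2 (dvd_mul_right _ _)⟩
       map_add' := fun x y => Subtype.ext (mul_add _ x y)
       map_smul' := fun t x => Subtype.ext (by
        show pi p ^ j * (t * x) = t * (pi p ^ j * x)
        ring) } : OO p →ₗ[OO p] ↥(PP p ^ j))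
    ⟨fun _ _ h => pi_pow_cancel j (congrArg Subtype.val h), fun ⟨_, hy⟩ => by
      obtain ⟨x, hx⟩ := mem_PP_pow.1 hy
      exact ⟨x, Subtype.ext hx.symm⟩⟩

theorem mulPi_val (x : OO p) : (mulPi p j x : OO p) = pi p ^ j * x := rfl

theorem mulPi_symm (y : ↥(PP p ^ j)) : pi p ^ j * (mulPi p j).symm y = y := by
  rw [← mulPi_val, LinearEquiv.apply_symm_apply]

/-- The bracket on `𝒪` given by `γ`. -/
noncomputable def HH.b (γ : HH p j) : OO p →ₗ[ℤ_[p]] OO p →ₗ[ℤ_[p]] OO p :=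
  LinearMap.mk₂ ℤ_[p] (fun x y => (mulPi p j).symm (γ.br (mulPi p j x) (mulPi p j y)))
    (fun x y z => by rw [map_add, map_add, LinearMap.add_apply, map_add])
    (fun t x y => by
      have h : mulPi p j (t • x) = t • mulPi p j x := (mulPi p j).toLinearMap.map_smul_of_tower t x
      have h2 : ∀ z, (mulPi p j).symm (t • z) = t • (mulPi p j).symm z :=
        fun z => (mulPi p j).symm.toLinearMap.map_smul_of_tower t z
      rw [h, map_smul, LinearMap.smul_apply, h2])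
    (fun x y z => by rw [map_add, map_add, map_add])
    (fun t x y => by
      have h : mulPi p j (t • y) = t • mulPi p j y := (mulPi p j).toLinearMap.map_smul_of_tower t y
      have h2 : ∀ z, (mulPi p j).symm (t • z) = t • (mulPi p j).symm z :=
        fun z => (mulPi p j).symm.toLinearMap.map_smul_of_tower t z
      rw [h, map_smul, h2])

theorem HH.mulPi_b (γ : HH p j) (x y : OO p) :
    mulPi p j (γ.b x y) = γ.br (mulPi p j x) (mulPi p j y) :=
  (mulPi p j).apply_symm_apply _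

theorem HH.pi_b (γ : HH p j) (x y : OO p) :
    pi p ^ j * γ.b x y = γ.g (mulPi p j x) (mulPi p j y) :=
  congrArg Subtype.val (γ.mulPi_b x y)

/-- The bracket on `𝒪` given by `γ`. -/
noncomputable def HH.toBB (γ : HH p j) : BB p (j + 1) where
  b := γ.b
  alt x := by
    apply pi_pow_cancel j
    rw [γ.pi_b, γ.alt, mul_zero]
  equi x y := by
    apply pi_pow_cancel j
    have h : ∀ z : OO p, mulPi p j (th p * z) = th p • mulPi p j z := fun z =>
      (mulPi p j).map_smul (th p) z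
    rw [γ.pi_b, h, h, γ.equi, ← γ.pi_b]
    ring
  dvd x y := by
    have h := mem_PP_pow.1 (γ.mem' (mulPi p j x) (mulPi p j y))
    rw [← γ.pi_b] at h
    exact pi_pow_dvd (m := j) (by rwa [show j + (j + 1) = 2 * j + 1 by omega])
  full := by
    by_contra hcon
    push Not at hcon
    have h1 : Submodule.span ℤ_[p] (Set.range fun q : ↥(PP p ^ j) × ↥(PP p ^ j) =>
        γ.g q.1 q.2) ≤ (PP p ^ (2 * j + 2)).restrictScalars ℤ_[p] := by
      rw [Submodule.span_le]
      rintro _ ⟨⟨x, y⟩, rfl⟩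
      show γ.g x y ∈ PP p ^ (2 * j + 2)
      have h2 := hcon ((mulPi p j).symm x) ((mulPi p j).symm y)
      have h3 := γ.pi_b ((mulPi p j).symm x) ((mulPi p j).symm y)
      rw [LinearEquiv.apply_symm_apply, LinearEquiv.apply_symm_apply] at h3
      rw [← h3, mem_PP_pow, show 2 * j + 2 = j + (j + 1 + 1) by omega, pow_add]
      exact mul_dvd_mul_left _ h2
    rw [γ.surj] at h1
    have h4 : pi p ^ (2 * j + 1) ∈ PP p ^ (2 * j + 2) :=
      h1 (mem_PP_pow.2 dvd_rfl : pi p ^ (2 * j + 1) ∈ PP p ^ (2 * j + 1))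
    obtain ⟨z, hz⟩ := mem_PP_pow.1 h4
    have h5 : (1 : OO p) = pi p * z := by
      apply pi_pow_cancel (2 * j + 1)
      rw [mul_one, ← mul_assoc, ← pow_succ]
      exact hz
    have h6 := congrArg (kap p) h5
    rw [map_one, map_mul, kap_pi, zero_mul] at h6
    exact one_ne_zero h6

theorem HH.jac_eq (γ : HH p j) (x y z : OO p) :
    γ.jac (mulPi p j x) (mulPi p j y) (mulPi p j z) = pi p ^ j * γ.toBB.jac x y z := by
  unfold HH.jac BB.jac
  rw [← γ.mulPi_b, ← γ.mulPi_b, ← γ.mulPi_b, ← γ.pi_b, ← γ.pi_b, ← γ.pi_b, mul_add, mul_add]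
  rfl

theorem HH.J_le (γ : HH p j) {m : ℕ} (hm : j ≤ m) :
    γ.J ≤ PP p ^ m ↔ ∀ x y z, pi p ^ (m - j) ∣ γ.toBB.jac x y z := by
  constructor
  · intro h x y z
    have h1 : γ.jac (mulPi p j x) (mulPi p j y) (mulPi p j z) ∈ PP p ^ m :=
      h (Ideal.subset_span ⟨_, _, _, rfl⟩)
    rw [γ.jac_eq, mem_PP_pow] at h1
    exact pi_pow_dvd (m := j) (by rwa [show j + (m - j) = m by omega])
  · intro h
    refine Ideal.span_le.2 ?_
    rintro _ ⟨x, y, z, rfl⟩
    have h1 := γ.jac_eq ((mulPi p j).symm x) ((mulPi p j).symm y) ((mulPi p j).symm z)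
    rw [LinearEquiv.apply_symm_apply, LinearEquiv.apply_symm_apply,
      LinearEquiv.apply_symm_apply] at h1
    show γ.jac x y z ∈ PP p ^ m
    rw [h1, mem_PP_pow]
    have h2 : pi p ^ m = pi p ^ j * pi p ^ (m - j) := by rw [← pow_add]; congr 1; omega
    rw [h2]
    exact mul_dvd_mul_left _ (h _ _ _)

/-- The isomorphism of `L_{j,m}(γ)` with `𝒪 / 𝔭^(m-j)`. -/
noncomputable def HH.iso (γ : HH p j) (hj : p ≤ j) {m : ℕ} (hm : j ≤ m) (hJ : γ.J ≤ PP p ^ m) :
    EIso (γ.toBB.L (by omega) (m - j) ((γ.J_le hm).1 hJ)) (γ.L hj m hJ) where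
  e :=
    { (Submodule.Quotient.equiv (PP p ^ (m - j)) (Submodule.comap (PP p ^ j).subtype (PP p ^ m))
        (mulPi p j) (by
          ext ⟨y, hy⟩
          simp only [Submodule.mem_map, Submodule.mem_comap, Submodule.subtype_apply]
          rw [mem_PP_pow]
          have h2 : pi p ^ m = pi p ^ j * pi p ^ (m - j) := by rw [← pow_add]; congr 1; omega
          constructor
          · rintro ⟨x, hx, hxy⟩
            obtain ⟨w, hw⟩ := mem_PP_pow.1 hx
            have h3 := congrArg Subtype.val hxy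
            refine ⟨w, ?_⟩
            show y = _
            rw [h2, mul_assoc, ← hw]
            exact h3.symm
          · rintro ⟨w, hw⟩
            refine ⟨pi p ^ (m - j) * w, mem_PP_pow.2 (dvd_mul_right _ _), Subtype.ext ?_⟩
            show pi p ^ j * (pi p ^ (m - j) * w) = y
            rw [hw, h2, mul_assoc])).restrictScalars ℤ_[p] with
      map_lie' := by
        intro x y
        obtain ⟨x, rfl⟩ := Submodule.Quotient.mk_surjective _ x
        obtain ⟨y, rfl⟩ := Submodule.Quotient.mk_surjective _ y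
        exact congrArg (Submodule.Quotient.mk) (γ.mulPi_b x y) }
  comm u x := by
    obtain ⟨x, rfl⟩ := Submodule.Quotient.mk_surjective _ x
    exact congrArg (Submodule.Quotient.mk) ((mulPi p j).map_smul ((u : (OO p)ˣ) : OO p) x)

end

end Pool.Agent.helper40.FR
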