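import Pool.Agent.helper40.FR.Ring
import Pool.Agent.helper40.Laz.Fun2

/-!
# Frames and branches of the graph of finite `p`-groups of maximal class: definitions
-/

namespace Pool.Agent.helper40.FR

open Polynomial Finset Pool.Agent.helper40.Laz

variable (p : ℕ) [hp : Fact p.Prime]

/-! ## The group `P = ⟨θ⟩` -/

/-- `θ` as a unit of `𝒪`. -/
noncomputable def thU : (OO p)ˣ where
  val := th p
  inv := th p ^ (p - 1)
  val_inv := by
    rw [← pow_succ', Nat.sub_add_cancel hp.out.pos, th_pow]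
  inv_val := by
    rw [← pow_succ, Nat.sub_add_cancel hp.out.pos, th_pow]

/-- The group `P = ⟨θ⟩` of order `p`. -/
abbrev Pg : Type := Subgroup.zpowers (thU p)

/-! ## Lie rings with an action of `P`, and their groups -/

/-- A Lie ring over `ℤ_p` with an action of `P` by automorphisms. -/
structure ELie where
  /-- the underlying Lie ring -/
  L : Type
  [lieRing : LieRing L]
  [lieAlgebra : LieAlgebra ℤ_[p] L]
  /-- the action of `P` -/
  act : Pg p → L →ₗ⁅ℤ_[p]⁆ L
  act_one : ∀ x, act 1 x = x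
  act_mul : ∀ u v x, act (u * v) x = act u (act v x)

attribute [instance] ELie.lieRing ELie.lieAlgebra

variable {p}

/-- The Lie ring has class at most `c`. -/
def ELie.Nil (A : ELie p) (c : ℕ) : Prop := LieModule.lowerCentralSeries ℤ_[p] A.L A.L c = ⊥

theorem inv_padic : Inv ℤ_[p] (p - 1) := by
  intro k h0 hk
  rw [PadicInt.isUnit_iff]
  by_contra h
  have h1 : ‖((k : ℤ) : ℤ_[p])‖ < 1 := by
    rw [Int.cast_natCast]
    exact lt_of_le_of_ne (PadicInt.norm_le_one _) h
  rw [PadicInt.norm_int_lt_one_iff_dvd] at h1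
  have h2 := Nat.le_of_dvd h0 (Int.natCast_dvd_natCast.1 h1)
  have := hp.out.pos
  omega

theorem one_le_pred : 1 ≤ p - 1 := by
  have := hp.out.two_le
  omega

/-- The group of a Lie ring of class at most `p - 1` (Lazard correspondence): the same set, with
the product given by the Baker-Campbell-Hausdorff formula. -/
@[nolint unusedArguments]
def ELie.G (A : ELie p) (_ : A.Nil (p - 1)) : Type := A.L

/-- The Baker-Campbell-Hausdorff product. -/
noncomputable def ELie.bch (A : ELie p) (h : A.Nil (p - 1)) (x y : A.L) : A.L :=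
  laz (lcsFil h) (lcsFil_one h) x y

noncomputable instance (A : ELie p) (h : A.Nil (p - 1)) : Group (A.G h) :=
  (lazGroup (L := A.L) (lcsFil h) (lcsFil_one h) inv_padic one_le_pred : Group A.L)

/-- The identity map from the Lie ring to the group. -/
def ELie.toG (A : ELie p) (h : A.Nil (p - 1)) (x : A.L) : A.G h := x

/-- The identity map from the group to the Lie ring. -/
def ELie.ofG (A : ELie p) (h : A.Nil (p - 1)) (x : A.G h) : A.L := x

theorem ELie.ofG_mul (A : ELie p) (h : A.Nil (p - 1)) (x y : A.G h) :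
    A.ofG h (x * y) = A.bch h (A.ofG h x) (A.ofG h y) := rfl

/-- The action of `P` on the group. -/
noncomputable def ELie.phi (A : ELie p) (h : A.Nil (p - 1)) : Pg p →* MulAut (A.G h) where
  toFun u :=
    { toFun := fun x => A.toG h (A.act u (A.ofG h x))
      invFun := fun x => A.toG h (A.act u⁻¹ (A.ofG h x))
      left_inv := fun x => by
        show A.act u⁻¹ (A.act u (A.ofG h x)) = A.ofG h x
        rw [← A.act_mul, inv_mul_cancel, A.act_one]
      right_inv := fun x => by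
        show A.act u (A.act u⁻¹ (A.ofG h x)) = A.ofG h x
        rw [← A.act_mul, mul_inv_cancel, A.act_one]
      map_mul' := fun x y => map_laz (lcsFil h) (lcsFil_one h) (lcsFil h) (lcsFil_one h)
        (A.act u) x y }
  map_one' := by
    ext x
    exact A.act_one x
  map_mul' u v := by
    ext x
    exact A.act_mul u v x

/-- The semidirect product of the group of `A` with `P`. -/
abbrev ELie.S (A : ELie p) (h : A.Nil (p - 1)) : Type := A.G h ⋊[A.phi h] Pg p

/-! ## Lie rings as quotients -/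

/-- The data defining a Lie ring `M / N` with bracket induced by `br`. -/
structure QData (p : ℕ) [Fact p.Prime] (M : Type) [AddCommGroup M] [Module (OO p) M]
    [Module ℤ_[p] M] [IsScalarTower ℤ_[p] (OO p) M] where
  /-- the bilinear map -/
  br : M →ₗ[ℤ_[p]] M →ₗ[ℤ_[p]] M
  /-- the submodule by which we divide -/
  N : Submodule (OO p) M
  alt : ∀ x, br x x = 0
  equi : ∀ x y, br (th p • x) (th p • y) = th p • br x y
  ideal : ∀ x ∈ N, ∀ y, br x y ∈ N
  jac : ∀ x y z, br (br x y) z + br (br y z) x + br (br z x) y ∈ N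

section

variable {M : Type} [AddCommGroup M] [Module (OO p) M] [Module ℤ_[p] M]
  [IsScalarTower ℤ_[p] (OO p) M] (D : QData p M)

theorem QData.skew (x y : M) : D.br x y = -D.br y x := by
  have h := D.alt (x + y)
  simp only [map_add, LinearMap.add_apply, D.alt, zero_add, add_zero] at h
  exact eq_neg_of_add_eq_zero_right h

theorem QData.equi_pow (n : ℕ) (x y : M) :
    D.br (th p ^ n • x) (th p ^ n • y) = th p ^ n • D.br x y := by
  induction n generalizing x y with
  | zero => simp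
  | succ n ih => rw [pow_succ', mul_smul, mul_smul, D.equi, ih, mul_smul]

/-- The quotient. -/
abbrev QData.L : Type := M ⧸ D.N

/-- The bracket on the quotient. -/
noncomputable def QData.brQ : D.L → D.L → D.L := fun x y =>
  Quotient.map₂ (fun x y => D.br x y) (by
    intro a b hab c d hcd
    have h1 : a - b ∈ D.N := (Submodule.quotientRel_def _).1 hab
    have h2 : c - d ∈ D.N := (Submodule.quotientRel_def _).1 hcd
    refine (Submodule.quotientRel_def _).2 ?_
    have h3 : D.br a c - D.br b d = D.br (a - b) c - D.br (c - d) b := by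
      rw [map_sub, LinearMap.sub_apply, D.skew (c - d) b, map_sub]; abel
    show D.br a c - D.br b d ∈ D.N
    rw [h3]
    exact sub_mem (D.ideal _ h1 _) (D.ideal _ h2 _)) x y

/-- The class of an element. -/
noncomputable abbrev QData.cl (x : M) : D.L := Submodule.Quotient.mk x

theorem QData.brQ_mk (x y : M) : D.brQ (D.cl x) (D.cl y) = D.cl (D.br x y) := rfl

noncomputable instance QData.bracket : Bracket D.L D.L := ⟨D.brQ⟩

theorem QData.lie_mk (x y : M) : ⁅D.cl x, D.cl y⁆ = D.cl (D.br x y) := rfl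

noncomputable instance QData.lieRing : LieRing D.L where
  add_lie x y z := by
    obtain ⟨x, rfl⟩ := Submodule.Quotient.mk_surjective _ x
    obtain ⟨y, rfl⟩ := Submodule.Quotient.mk_surjective _ y
    obtain ⟨z, rfl⟩ := Submodule.Quotient.mk_surjective _ z
    show D.cl (D.br (x + y) z) = D.cl (D.br x z) + D.cl (D.br y z)
    rw [map_add]; rfl
  lie_add x y z := by
    obtain ⟨x, rfl⟩ := Submodule.Quotient.mk_surjective _ x
    obtain ⟨y, rfl⟩ := Submodule.Quotient.mk_surjective _ y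
    obtain ⟨z, rfl⟩ := Submodule.Quotient.mk_surjective _ z
    show D.cl (D.br x (y + z)) = D.cl (D.br x y) + D.cl (D.br x z)
    rw [map_add]; rfl
  lie_self x := by
    obtain ⟨x, rfl⟩ := Submodule.Quotient.mk_surjective _ x
    show D.cl (D.br x x) = 0
    rw [D.alt]; rfl
  leibniz_lie x y z := by
    obtain ⟨x, rfl⟩ := Submodule.Quotient.mk_surjective _ x
    obtain ⟨y, rfl⟩ := Submodule.Quotient.mk_surjective _ y
    obtain ⟨z, rfl⟩ := Submodule.Quotient.mk_surjective _ z
    show D.cl (D.br x (D.br y z)) = D.cl (D.br (D.br x y) z) + D.cl (D.br y (D.br x z))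
    have h := D.jac x y z
    rw [← sub_eq_zero, ← Submodule.Quotient.mk_add, ← Submodule.Quotient.mk_sub,
      Submodule.Quotient.mk_eq_zero]
    have h2 : D.br x (D.br y z) - (D.br (D.br x y) z + D.br y (D.br x z)) =
        -(D.br (D.br x y) z + D.br (D.br y z) x + D.br (D.br z x) y) := by
      rw [D.skew x (D.br y z), D.skew y (D.br x z), D.skew x z, map_neg, LinearMap.neg_apply]
      abel
    rw [h2]
    exact neg_mem h

noncomputable instance QData.lieAlgebra : LieAlgebra ℤ_[p] D.L where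
  lie_smul t x y := by
    obtain ⟨x, rfl⟩ := Submodule.Quotient.mk_surjective _ x
    obtain ⟨y, rfl⟩ := Submodule.Quotient.mk_surjective _ y
    show D.cl (D.br x (t • y)) = t • D.cl (D.br x y)
    rw [map_smul]; rfl

theorem mem_Pg (u : Pg p) : ∃ n : ℕ, ((u : (OO p)ˣ) : OO p) = th p ^ n := by
  obtain ⟨k, hk⟩ := u.2
  have hpow : thU p ^ p = 1 := by
    apply Units.ext
    rw [Units.val_pow_eq_pow_val]
    exact th_pow p
  refine ⟨(k % p).toNat, ?_⟩
  have h1 : thU p ^ k = thU p ^ (k % p).toNat := by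
    have h2 : 0 ≤ k % p := Int.emod_nonneg _ (by exact_mod_cast hp.out.ne_zero)
    conv_lhs => rw [← Int.emod_add_mul_ediv k p]
    rw [zpow_add, zpow_mul, zpow_natCast, hpow, one_zpow, mul_one, ← zpow_natCast,
      Int.toNat_of_nonneg h2]
  have h3 : (u : (OO p)ˣ) = thU p ^ (k % p).toNat := hk.symm.trans h1
  rw [h3, Units.val_pow_eq_pow_val]; rfl

/-- The Lie ring `M / N` with the action of `P` by multiplication. -/
noncomputable def QData.toELie : ELie p where
  L := D.L
  act u :=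
    { toFun := fun x => ((u : (OO p)ˣ) : OO p) • x
      map_add' := fun x y => smul_add _ x y
      map_smul' := fun t x => smul_comm _ t x
      map_lie' := by
        intro x y
        obtain ⟨n, hn⟩ := mem_Pg u
        obtain ⟨x, rfl⟩ := Submodule.Quotient.mk_surjective _ x
        obtain ⟨y, rfl⟩ := Submodule.Quotient.mk_surjective _ y
        show ((u : (OO p)ˣ) : OO p) • D.cl (D.br x y) = D.cl (D.br (((u : (OO p)ˣ) : OO p) • x)
          (((u : (OO p)ˣ) : OO p) • y))
        rw [hn, D.equi_pow]; rfl }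
  act_one x := one_smul _ x
  act_mul u v x := mul_smul _ _ x

theorem QData.act_apply (u : Pg p) (x : D.L) :
    D.toELie.act u x = ((u : (OO p)ˣ) : OO p) • x := rfl

end

/-! ## The sets `Ĥ_j` -/

/-- The set `Ĥ_j` of surjective `P`-equivariant homomorphisms `γ : 𝔭^j ∧ 𝔭^j → 𝔭^(2j+1)`, given as
alternating bilinear maps. -/
structure HH (p : ℕ) [Fact p.Prime] (j : ℕ) where
  /-- the bilinear map -/
  g : ↥(PP p ^ j) →ₗ[ℤ_[p]] ↥(PP p ^ j) →ₗ[ℤ_[p]] OO p
  alt : ∀ x, g x x = 0
  equi : ∀ x y, g (th p • x) (th p • y) = th p * g x y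
  surj : Submodule.span ℤ_[p] (Set.range fun q : ↥(PP p ^ j) × ↥(PP p ^ j) => g q.1 q.2) =
    (PP p ^ (2 * j + 1)).restrictScalars ℤ_[p]

variable {j : ℕ}

theorem HH.mem' (γ : HH p j) (x y : ↥(PP p ^ j)) : γ.g x y ∈ PP p ^ (2 * j + 1) := by
  have h : γ.g x y ∈ (PP p ^ (2 * j + 1)).restrictScalars ℤ_[p] := by
    rw [← γ.surj]
    exact Submodule.subset_span ⟨(x, y), rfl⟩
  exact h

theorem HH.mem (γ : HH p j) (x y : ↥(PP p ^ j)) : γ.g x y ∈ PP p ^ j :=
  Ideal.pow_le_pow_right (by omega) (γ.mem' x y)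

/-- `γ` as a bilinear map with values in `𝔭^j`. -/
noncomputable def HH.br (γ : HH p j) : ↥(PP p ^ j) →ₗ[ℤ_[p]] ↥(PP p ^ j) →ₗ[ℤ_[p]] ↥(PP p ^ j) :=
  LinearMap.mk₂ ℤ_[p] (fun x y => ⟨γ.g x y, γ.mem x y⟩)
    (fun x y z => Subtype.ext (by
      show γ.g (x + y) z = γ.g x z + γ.g y z
      rw [map_add]; rfl))
    (fun t x y => Subtype.ext (by
      show γ.g (t • x) y = t • γ.g x y
      rw [map_smul]; rfl))
    (fun x y z => Subtype.ext (by
      show γ.g x (y + z) = γ.g x y + γ.g x z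
      rw [map_add]))
    (fun t x y => Subtype.ext (by
      show γ.g x (t • y) = t • γ.g x y
      rw [map_smul]))

theorem HH.br_val (γ : HH p j) (x y : ↥(PP p ^ j)) : (γ.br x y : OO p) = γ.g x y := rfl

/-- The Jacobi sum `γ(γ(x ∧ y) ∧ z) + γ(γ(y ∧ z) ∧ x) + γ(γ(z ∧ x) ∧ y)`. -/
noncomputable def HH.jac (γ : HH p j) (x y z : ↥(PP p ^ j)) : OO p :=
  γ.g (γ.br x y) z + γ.g (γ.br y z) x + γ.g (γ.br z x) y

/-- The ideal `J_j(γ)` generated by the Jacobi sums. -/
noncomputable def HH.J (γ : HH p j) : Ideal (OO p) :=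
  Ideal.span {t | ∃ x y z : ↥(PP p ^ j), t = γ.jac x y z}

/-- `γ` maps `𝔭^m × 𝔭^j` to `𝔭^m`, if `j ≥ p`. -/
theorem HH.ideal (γ : HH p j) (hj : p ≤ j) {m : ℕ} (x y : ↥(PP p ^ j))
    (hx : (x : OO p) ∈ PP p ^ m) : γ.g x y ∈ PP p ^ m := by
  have h2 := hp.out.two_le
  rcases Nat.lt_or_ge m (2 * j + 1) with h | h
  · exact Ideal.pow_le_pow_right h.le (γ.mem' x y)
  obtain ⟨ε, hε, _, hpε⟩ := exists_eps (p := p)
  -- `m = j + k (p - 1) + s`
  obtain ⟨k, s, hs, hm⟩ : ∃ k s : ℕ, s < p - 1 ∧ m - j = k * (p - 1) + s :=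
    ⟨(m - j) / (p - 1), (m - j) % (p - 1), Nat.mod_lt _ (by omega), by
      rw [mul_comm]; exact (Nat.div_add_mod _ _).symm⟩
  obtain ⟨w, hw⟩ := mem_PP_pow.1 hx
  obtain ⟨e, rfl⟩ := hε
  have h3 : (x : OO p) = (p : OO p) ^ k * (pi p ^ (j + s) *
      ((((e⁻¹ : (OO p)ˣ) : OO p)) ^ k * w)) := by
    have h4 : m = j + k * (p - 1) + s := by omega
    have h5 : (e : OO p) ^ k * ((e⁻¹ : (OO p)ˣ) : OO p) ^ k = 1 := by
      rw [← mul_pow, Units.mul_inv, one_pow]
    rw [hw, hpε, h4, mul_pow, ← pow_mul, mul_comm (p - 1) k]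
    calc pi p ^ (j + k * (p - 1) + s) * w =
        ((e : OO p) ^ k * ((e⁻¹ : (OO p)ˣ) : OO p) ^ k) * (pi p ^ (j + k * (p - 1) + s) * w) := by
          rw [h5, one_mul]
      _ = _ := by ring
  let x' : ↥(PP p ^ j) := ⟨pi p ^ (j + s) * ((((e⁻¹ : (OO p)ˣ) : OO p)) ^ k * w),
    mem_PP_pow.2 (dvd_mul_of_dvd_left (pow_dvd_pow _ (by omega)) _)⟩
  have h6 : x = (p : ℤ_[p]) ^ k • x' := by
    apply Subtype.ext
    rw [h3]
    show _ = (p : ℤ_[p]) ^ k • _
    rw [Algebra.smul_def, map_pow, map_natCast]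
  rw [h6, map_smul, LinearMap.smul_apply, Algebra.smul_def, map_pow, map_natCast]
  have h7 := mem_PP_pow.1 (γ.mem' x' y)
  rw [mem_PP_pow, hpε, mul_pow, ← pow_mul]
  have h8 : pi p ^ m ∣ pi p ^ ((p - 1) * k) * γ.g x' y := by
    refine (pow_dvd_pow _ (?_ : m ≤ (p - 1) * k + (2 * j + 1))).trans ?_
    · rw [mul_comm (p - 1) k]; omega
    · rw [pow_add]; exact mul_dvd_mul_left _ h7
  rw [mul_assoc]
  exact Dvd.dvd.mul_left h8 _

/-- The Lie ring `L_{j,m}(γ) = 𝔭^j / 𝔭^m` with bracket `[a, b] = γ(a ∧ b) + 𝔭^m`, for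
`J_j(γ) ⊆ 𝔭^m`, with its action of `P`. -/
noncomputable def HH.L (γ : HH p j) (hj : p ≤ j) (m : ℕ) (hJ : γ.J ≤ PP p ^ m) : ELie p :=
  QData.toELie (M := ↥(PP p ^ j))
    { br := γ.br
      N := Submodule.comap (PP p ^ j).subtype (PP p ^ m)
      alt := fun x => Subtype.ext (γ.alt x)
      equi := fun x y => Subtype.ext (γ.equi x y)
      ideal := fun x hx y => γ.ideal hj x y hx
      jac := fun x y z => hJ (Ideal.subset_span ⟨x, y, z, rfl⟩) }

/-! ## Groups of maximal class, branches and frames -/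

/-- A finite `p`-group of maximal class: order `p ^ n`, `n ≥ 2`, and class `n - 1`. -/
def MaxClass (p : ℕ) (G : Type) [Group G] : Prop :=
  ∃ n, 2 ≤ n ∧ Nat.card G = p ^ n ∧ Group.nilpotencyClass G = n - 1

/-- `H` is an immediate descendant of `G`: both are of maximal class and `H / Z(H) ≃ G`. -/
def Edge (p : ℕ) (G H : GrpCat.{0}) : Prop :=
  MaxClass p G ∧ MaxClass p H ∧ Nonempty ((H ⧸ Subgroup.center H) ≃* G)

/-- `H` is a descendant of `G` in the graph `𝒢(p)`. -/
def Desc (p : ℕ) (G H : GrpCat.{0}) : Prop :=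
  Nonempty (H ≃* G) ∨ Relation.TransGen (Edge p) G H

/-- The Lie ring with zero bracket `𝒪 / 𝔭^(i-1)`. -/
noncomputable def mainLie (p : ℕ) [Fact p.Prime] (i : ℕ) : ELie p :=
  QData.toELie (M := OO p)
    { br := 0
      N := PP p ^ (i - 1)
      alt := fun _ => rfl
      equi := fun _ _ => (smul_zero _).symm
      ideal := fun _ _ _ => zero_mem _
      jac := fun _ _ _ => by simp }

/-- The action of `P` on the additive group `𝒪 / 𝔭^(i-1)`. -/
noncomputable def mainPhi (p : ℕ) [Fact p.Prime] (i : ℕ) :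
    Pg p →* MulAut (Multiplicative (OO p ⧸ PP p ^ (i - 1))) where
  toFun u := AddEquiv.toMultiplicative
    { toFun := fun x => ((u : (OO p)ˣ) : OO p) • x
      invFun := fun x => (((u⁻¹ : Pg p) : (OO p)ˣ) : OO p) • x
      left_inv := fun x => by
        show (((u⁻¹ : Pg p) : (OO p)ˣ) : OO p) • ((u : (OO p)ˣ) : OO p) • x = x
        rw [← mul_smul, ← Units.val_mul, ← Subgroup.coe_mul, inv_mul_cancel]
        exact one_smul _ x
      right_inv := fun x => by
        show ((u : (OO p)ˣ) : OO p) • (((u⁻¹ : Pg p) : (OO p)ˣ) : OO p) • x = x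
        rw [← mul_smul, ← Units.val_mul, ← Subgroup.coe_mul, mul_inv_cancel]
        exact one_smul _ x
      map_add' := fun x y => smul_add _ x y }
  map_one' := by
    ext x
    exact one_smul (OO p) (Multiplicative.toAdd x)
  map_mul' u v := by
    ext x
    exact mul_smul ((u : (OO p)ˣ) : OO p) ((v : (OO p)ˣ) : OO p) (Multiplicative.toAdd x)

/-- The mainline group `S_i = 𝒪 / 𝔭^(i-1) ⋊ P`, of order `p ^ i`. -/
noncomputable def mainline (p : ℕ) [Fact p.Prime] (i : ℕ) : GrpCat.{0} :=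
  GrpCat.of (Multiplicative (OO p ⧸ PP p ^ (i - 1)) ⋊[mainPhi p i] Pg p)

/-- The branch `ℬ_i`: the descendants of `S_i` which are not descendants of `S_{i+1}`. -/
def Branch (p : ℕ) [Fact p.Prime] (i : ℕ) (G : GrpCat.{0}) : Prop :=
  MaxClass p G ∧ Desc p (mainline p i) G ∧ ¬ Desc p (mainline p (i + 1)) G

/-- The frame `ℱ_{j+2}`: the groups of `ℬ_{j+2}` isomorphic to some
`S_{j,m}(γ) = G_{j,m}(γ) ⋊ P`, `γ ∈ Ĥ_j`, `j ≤ m`, `J_j(γ) ⊆ 𝔭^m`, with `L_{j,m}(γ)` of class at
most `p - 1`. -/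
def Frame (p : ℕ) [Fact p.Prime] (j : ℕ) (hj : p ≤ j) (G : GrpCat.{0}) : Prop :=
  Branch p (j + 2) G ∧ ∃ (γ : HH p j) (m : ℕ) (_ : j ≤ m) (hJ : γ.J ≤ PP p ^ m)
    (hn : (γ.L hj m hJ).Nil (p - 1)), Nonempty (G ≃* (γ.L hj m hJ).S hn)

end Pool.Agent.helper40.FR
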