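import Pool.Agent.helper40.FR.Stmt
import Pool.Agent.helper40.FR.Defs
import Pool.Agent.helper40.Laz.Log

/-!
# The Baker-Campbell-Hausdorff product of the statement is the one of the Lazard library
-/

namespace Pool.Agent.helper40.FS

open Finset Pool.Agent.helper40.Laz MulOpposite

variable {p : ℕ} [hp : Fact p.Prime]

theorem ex_eq (u : MonoidAlgebra ℤ_[p] (FreeMonoid Bool)) : ex p u = nexp ℤ_[p] (p - 1) u := by
  unfold ex nexp
  rw [Nat.sub_add_cancel hp.out.pos]; rfl

theorem logexp_eq : logexp p = nlog ℤ_[p] (p - 1)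
    (nexp ℤ_[p] (p - 1) (MonoidAlgebra.of ℤ_[p] _ (FreeMonoid.of false)) *
      nexp ℤ_[p] (p - 1) (MonoidAlgebra.of ℤ_[p] _ (FreeMonoid.of true)) - 1) := by
  unfold logexp nlog
  rw [Nat.sub_add_cancel hp.out.pos, ex_eq, ex_eq]; rfl

/-- The image of `logexp` in the truncated algebra. -/
theorem mk_logexp : Ideal.Quotient.mkₐ ℤ_[p] (fil ℤ_[p] Bool (p - 1 + 1)) (logexp p) =
    bchE ℤ_[p] (p - 1) := by
  rw [logexp_eq, map_nlog, map_sub, map_mul, map_one, map_nexp, map_nexp,
    bchE_eq FR.inv_padic FR.one_le_pred]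
  rfl

section

variable {L : Type} [LieRing L] [LieAlgebra ℤ_[p] L]

theorem foldl_eq_actW {X : Type} (f : X → L) (v : List X) (l : L) :
    unop (actW ℤ_[p] f (FreeMonoid.ofList v)) l = (v.map f).foldl (fun x y => ⁅x, y⁆) l := by
  induction v generalizing l with
  | nil => rfl
  | cons x v ih =>
    rw [FreeMonoid.ofList_cons, actW_mul, actW_of, ih, List.map_cons, List.foldl_cons]

theorem dynW_eq {X : Type} (f : X → L) (v : List X) :
    dynW ℤ_[p] f (FreeMonoid.ofList v) = lnb (fun x y => ⁅x, y⁆) (v.map f) := by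
  cases v with
  | nil => rfl
  | cons x v =>
    rw [FreeMonoid.ofList_cons, dynW_of_mul, foldl_eq_actW]; rfl

/-- The linear form underlying `bch`. -/
noncomputable def bchL (x y : L) : MonoidAlgebra ℤ_[p] (FreeMonoid Bool) →ₗ[ℤ_[p]] L where
  toFun f := ∑ k ∈ Finset.Ico 1 p, ∑ w : Fin k → Bool,
    (f.coeff (FreeMonoid.ofList (List.ofFn w)) * Ring.inverse (k : ℤ_[p])) •
      lnb (fun x y : L => ⁅x, y⁆) (List.ofFn fun i => if w i then y else x)
  map_add' f g := by
    rw [← Finset.sum_add_distrib]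
    refine Finset.sum_congr rfl fun k _ => ?_
    rw [← Finset.sum_add_distrib]
    refine Finset.sum_congr rfl fun w _ => ?_
    rw [MonoidAlgebra.coeff_add, Finsupp.add_apply, add_mul, add_smul]
  map_smul' r f := by
    rw [Finset.smul_sum]
    refine Finset.sum_congr rfl fun k _ => ?_
    rw [Finset.smul_sum]
    refine Finset.sum_congr rfl fun w _ => ?_
    rw [MonoidAlgebra.coeff_smul, Finsupp.smul_apply, smul_smul, smul_eq_mul, mul_assoc]; rfl

theorem bchL_of (Φ : LFil ℤ_[p] L (p - 1)) (h1 : ∀ x, x ∈ Φ.Λ 1) (x y : L)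
    (v : List Bool) : bchL (p := p) x y (MonoidAlgebra.of ℤ_[p] _ (FreeMonoid.ofList v)) =
      evL Φ (two x y) (fun _ => h1 _) (word ℤ_[p] (p - 1) (FreeMonoid.ofList v)) := by
  classical
  have hp1 := hp.out.pos
  have hc : ∀ u : List Bool, (MonoidAlgebra.of ℤ_[p] _ (FreeMonoid.ofList v)).coeff
      (FreeMonoid.ofList u) = if v = u then 1 else 0 := by
    intro u
    rw [MonoidAlgebra.of_apply, MonoidAlgebra.coeff_single, Finsupp.single_apply]
    simp only [EmbeddingLike.apply_eq_iff_eq]
  show ∑ k ∈ Finset.Ico 1 p, ∑ w : Fin k → Bool,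
    ((MonoidAlgebra.of ℤ_[p] _ (FreeMonoid.ofList v)).coeff (FreeMonoid.ofList (List.ofFn w)) *
      Ring.inverse (k : ℤ_[p])) •
      lnb (fun x y : L => ⁅x, y⁆) (List.ofFn fun i => if w i then y else x) = _
  simp only [hc]
  rw [evL_word]
  by_cases hv : 1 ≤ v.length ∧ v.length < p
  · rw [Finset.sum_eq_single v.length]
    · rw [Finset.sum_eq_single v.get]
      · rw [List.ofFn_get, if_pos rfl, one_mul, dynW_eq]
        congr 2
        show _ = v.map (two x y)
        conv_rhs => rw [← List.ofFn_get v, List.map_ofFn]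
        rfl
      · intro w _ hw
        rw [if_neg, zero_mul, zero_smul]
        intro h
        apply hw
        apply List.ofFn_injective
        rw [← h, List.ofFn_get]
      · intro h; exact absurd (Finset.mem_univ _) h
    · intro k _ hk
      refine Finset.sum_eq_zero fun w _ => ?_
      rw [if_neg, zero_mul, zero_smul]
      intro h
      apply hk
      rw [h, List.length_ofFn]
    · intro h
      exact absurd (Finset.mem_Ico.2 hv) h
  · have h0 : ∑ k ∈ Finset.Ico 1 p, ∑ w : Fin k → Bool,
        ((if v = List.ofFn w then (1 : ℤ_[p]) else 0) * Ring.inverse (k : ℤ_[p])) •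
          lnb (fun x y : L => ⁅x, y⁆) (List.ofFn fun i => if w i then y else x) = 0 := by
      refine Finset.sum_eq_zero fun k hk => Finset.sum_eq_zero fun w _ => ?_
      rw [if_neg, zero_mul, zero_smul]
      intro h
      apply hv
      rw [h, List.length_ofFn]
      exact Finset.mem_Ico.1 hk
    rw [h0]
    symm
    by_cases h2 : v.length = 0
    · have h3 : v = [] := List.length_eq_zero_iff.1 h2
      subst h3
      have h4 : dynW ℤ_[p] (two x y) (FreeMonoid.ofList []) = 0 := rfl
      rw [h4, smul_zero]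
    · have h3 := dynW_mem (R := ℤ_[p]) Φ (two x y) (FreeMonoid.ofList v) (fun _ => h1 _)
      have h4 : p - 1 < (FreeMonoid.ofList v).length := by
        show p - 1 < v.length
        omega
      rw [Φ.bot _ _ h4 h3, smul_zero]

/-- `bch` is the product of the Lazard library. -/
theorem bch_eq (Φ : LFil ℤ_[p] L (p - 1)) (h1 : ∀ x, x ∈ Φ.Λ 1) (x y : L) :
    bch p (fun x y : L => ⁅x, y⁆) x y = laz Φ h1 x y := by
  have h2 : ∀ f : MonoidAlgebra ℤ_[p] (FreeMonoid Bool), bchL (p := p) x y f =
      evL Φ (two x y) (fun _ => h1 _)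
        (Ideal.Quotient.mkₐ ℤ_[p] (fil ℤ_[p] Bool (p - 1 + 1)) f) := by
    intro f
    induction f using MonoidAlgebra.induction_on with
    | of w => exact bchL_of Φ h1 x y w.toList
    | add f g hf hg => rw [map_add, hf, hg, map_add, map_add]
    | smul r f hf => rw [map_smul, hf, map_smul, map_smul]
  have h3 := h2 (logexp p)
  rw [mk_logexp] at h3
  exact h3

end

end Pool.Agent.helper40.FS
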