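import Pool.Agent.helper40.FR.B
import Pool.Agent.helper40.Laz.Comm2

/-!
# From a group `H` with `H / Z(H) ≃ S` to a Lie ring
-/

set_option linter.style.haveILetI false
set_option linter.unusedSectionVars false

namespace Pool.Agent.helper40.FR

open Polynomial Finset Pool.Agent.helper40.Laz

variable {p : ℕ} [hp : Fact p.Prime]

/-- Two actions of scalars. -/
theorem padic_smul_eq {k : ℕ} {V : Type*} [AddCommGroup V] [Module ℤ_[p] V]
    [Module (ZMod (p ^ k)) V] (a : ℤ_[p]) (x : V) : (PadicInt.toZModPow k a) • x = a • x := by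
  have h0 : ∀ y : V, ((p ^ k : ℕ) : ℤ_[p]) • y = 0 := by
    intro y
    rw [Nat.cast_smul_eq_nsmul, ← Nat.cast_smul_eq_nsmul (ZMod (p ^ k)), ZMod.natCast_self,
      zero_smul]
  haveI : NeZero (p ^ k) := ⟨pow_ne_zero _ hp.out.ne_zero⟩
  have h1 : a - ((PadicInt.toZModPow k a).val : ℤ_[p]) ∈ RingHom.ker (PadicInt.toZModPow (p := p) k) := by
    rw [RingHom.mem_ker, map_sub, map_natCast, ZMod.natCast_zmod_val, sub_self]
  rw [PadicInt.ker_toZModPow, Ideal.mem_span_singleton] at h1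
  obtain ⟨b, hb⟩ := h1
  have h2 : a = ((PadicInt.toZModPow k a).val : ℤ_[p]) + ((p ^ k : ℕ) : ℤ_[p]) * b := by
    rw [Nat.cast_pow, ← hb]; ring
  conv_rhs => rw [h2]
  rw [add_smul, mul_smul, h0, add_zero, Nat.cast_smul_eq_nsmul,
    ← Nat.cast_smul_eq_nsmul (ZMod (p ^ k)), ZMod.natCast_zmod_val]

/-- A Lie ring killed by `N` is a Lie algebra over `ZMod N`. -/
@[reducible] def zmodLie {N : ℕ} [NeZero N] {V : Type*} [LieRing V] (h : ∀ x : V, N • x = 0) :
    LieAlgebra (ZMod N) V :=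
  let m : Module (ZMod N) V := AddCommGroup.zmodModule h
  { toModule := m
    lie_smul := by
      intro t x y
      rw [← ZMod.natCast_zmod_val t, Nat.cast_smul_eq_nsmul, Nat.cast_smul_eq_nsmul, lie_nsmul] }

/-- A Lie algebra over `ZMod (p ^ k)` is a Lie algebra over `ℤ_[p]`. -/
@[reducible] noncomputable def padicLie (k : ℕ) {V : Type*} [LieRing V]
    [LieAlgebra (ZMod (p ^ k)) V] : LieAlgebra ℤ_[p] V :=
  let m : Module ℤ_[p] V := Module.compHom V (PadicInt.toZModPow k)
  { toModule := m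
    lie_smul := fun a x y => lie_smul (PadicInt.toZModPow k a) x y }

theorem inv_zmod (k : ℕ) : Inv (ZMod (p ^ k)) (p - 1) := by
  letI : Algebra ℤ_[p] (ZMod (p ^ k)) := (PadicInt.toZModPow k).toAlgebra
  exact Inv.map (R := ℤ_[p]) (R' := ZMod (p ^ k)) inv_padic

theorem lcs_scalar {R₁ R₂ L : Type*} [CommRing R₁] [CommRing R₂] [LieRing L] [LieAlgebra R₁ L]
    [LieAlgebra R₂ L] {c : ℕ} (h : LieModule.lowerCentralSeries R₁ L L c = ⊥) :
    LieModule.lowerCentralSeries R₂ L L c = ⊥ := by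
  have h1 := LieModule.coe_lowerCentralSeries_eq_int R₁ L L c
  have h2 := LieModule.coe_lowerCentralSeries_eq_int R₂ L L c
  rw [h] at h1
  rw [eq_bot_iff]
  intro x hx
  have h3 : x ∈ (LieModule.lowerCentralSeries R₂ L L c : Set L) := hx
  rw [h2, ← h1] at h3
  exact (LieSubmodule.mem_bot x).2 ((LieSubmodule.mem_bot x).1 h3)

section

variable (A : ELie p) (h1 : A.Nil (p - 1)) (H : Type) [Group H]
  (e : (H ⧸ Subgroup.center H) ≃* A.S h1)

/-- The projection. -/
noncomputable def qq : H →* A.S h1 := e.toMonoidHom.comp (QuotientGroup.mk' (Subgroup.center H))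

theorem qq_surj : Function.Surjective (qq A h1 H e) :=
  e.surjective.comp (QuotientGroup.mk'_surjective _)

theorem qq_eq_one {x : H} : qq A h1 H e x = 1 ↔ x ∈ Subgroup.center H := by
  rw [← QuotientGroup.eq_one_iff]
  exact map_eq_one_iff e e.injective

/-- The preimage of `G`. -/
noncomputable abbrev MM : Subgroup H := (SemidirectProduct.rightHom.comp (qq A h1 H e)).ker

/-- The projection to the Lie ring. -/
noncomputable def ff (x : MM A h1 H e) : A.L := A.ofG h1 (qq A h1 H e x).left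

theorem qq_right (x : MM A h1 H e) : (qq A h1 H e x).right = 1 := x.2

theorem qq_eq_inl (x : MM A h1 H e) :
    qq A h1 H e x = SemidirectProduct.inl (A.toG h1 (ff A h1 H e x)) := by
  apply SemidirectProduct.ext
  · rfl
  · exact qq_right A h1 H e x

theorem ff_mul (x y : MM A h1 H e) :
    ff A h1 H e (x * y) = laz (lcsFil h1) (lcsFil_one h1) (ff A h1 H e x) (ff A h1 H e y) := by
  have h2 : qq A h1 H e ((x * y : MM A h1 H e) : H) =
      SemidirectProduct.inl (A.toG h1 (ff A h1 H e x) * A.toG h1 (ff A h1 H e y)) := by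
    rw [map_mul SemidirectProduct.inl, ← qq_eq_inl, ← qq_eq_inl, ← map_mul]; rfl
  have h3 := congrArg SemidirectProduct.left h2
  exact h3

theorem ff_surj : Function.Surjective (ff A h1 H e) := by
  intro l
  obtain ⟨x, hx⟩ := qq_surj A h1 H e (SemidirectProduct.inl (A.toG h1 l))
  refine ⟨⟨x, ?_⟩, ?_⟩
  · rw [MonoidHom.mem_ker, MonoidHom.comp_apply, hx, SemidirectProduct.rightHom_inl]
  · show A.ofG h1 (qq A h1 H e x).left = l
    rw [hx]; rfl

theorem ff_eq_zero (x : MM A h1 H e) : ff A h1 H e x = 0 ↔ (x : H) ∈ Subgroup.center H := by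
  rw [← qq_eq_one A h1 H e, qq_eq_inl]
  constructor
  · intro h
    rw [h]
    exact map_one (SemidirectProduct.inl : A.G h1 →* A.S h1)
  · intro h
    have h3 := congrArg SemidirectProduct.left h
    exact h3

theorem ff_pow (x : MM A h1 H e) (n : ℕ) : ff A h1 H e (x ^ n) = n • ff A h1 H e x := by
  induction n with
  | zero =>
    rw [pow_zero, zero_smul]
    exact laz_map_one _ _ inv_padic one_le_pred _ (ff_mul A h1 H e)
  | succ n ih =>
    rw [pow_succ, ff_mul, ih, laz_of_comm _ _ inv_padic one_le_pred, succ_nsmul]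
    rw [nsmul_lie, lie_self, nsmul_zero]

variable [Finite H]

theorem gok (hp5 : 5 ≤ p) (h2 : A.Nil (p - 2)) {k : ℕ} (hk : Nat.card (MM A h1 H e) = p ^ k) :
    GOK (p ^ k) (p - 1) (MM A h1 H e) where
  inv := inv_zmod k
  one_le := one_le_pred
  exp x := by rw [← hk]; exact pow_card_eq_one'
  cls := by
    rw [show p - 1 = p - 2 + 1 by omega, eq_bot_iff]
    refine Subgroup.commutator_le.2 fun a ha b _ => ?_
    have h3 := Gm_map (lcsFil h1) (lcsFil_one h1) inv_padic one_le_pred (ff A h1 H e)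
      (ff_mul A h1 H e) ha
    have h4 : ff A h1 H e a ∈ LieModule.lowerCentralSeries ℤ_[p] A.L A.L (p - 2) := h3
    have h2' : LieModule.lowerCentralSeries ℤ_[p] A.L A.L (p - 2) = ⊥ := h2
    rw [h2', LieSubmodule.mem_bot, ff_eq_zero] at h4
    rw [Subgroup.mem_bot, commutatorElement_eq_one_iff_mul_comm]
    exact Subtype.ext (Subgroup.mem_center_iff.1 h4 b).symm

end

theorem exists_lie (hp5 : 5 ≤ p) (A : ELie p) [Finite A.L] (h1 : A.Nil (p - 1))
    (h2 : A.Nil (p - 2)) (H : Type) [Group H] [Finite H] (hH : IsPGroup p H)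
    (hZ : Nat.card (Subgroup.center H) = p) (e : (H ⧸ Subgroup.center H) ≃* A.S h1) :
    ∃ (L' : Type) (_ : LieRing L') (_ : LieAlgebra ℤ_[p] L') (σ : L' →ₗ⁅ℤ_[p]⁆ L')
      (f : L' →ₗ⁅ℤ_[p]⁆ A.L), Function.Surjective f ∧ (∀ x, σ^[p] x = x) ∧
      (∀ x, f (σ x) = A.act ⟨thU p, Subgroup.mem_zpowers _⟩ (f x)) ∧
      (∀ z, f z = 0 → σ z = z ∧ (p : ℤ_[p]) • z = 0 ∧ ∀ u : L', ⁅z, u⁆ = 0) ∧
      (∀ y, σ y = y → (∀ u : L', ⁅y, u⁆ = 0) → f y = 0) := by
  obtain ⟨k, hk⟩ := IsPGroup.iff_card.1 (hH.to_subgroup (MM A h1 H e))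
  have hG := gok A h1 H e hp5 h2 hk
  -- the module structures
  letI : Algebra ℤ_[p] (ZMod (p ^ k)) := (PadicInt.toZModPow k).toAlgebra
  have hkill : ∀ l : A.L, (p ^ k) • l = 0 := by
    intro l
    obtain ⟨x, rfl⟩ := ff_surj A h1 H e l
    rw [← ff_pow, hG.exp]
    exact laz_map_one _ _ inv_padic one_le_pred _ (ff_mul A h1 H e)
  haveI : NeZero (p ^ k) := ⟨pow_ne_zero _ hp.out.ne_zero⟩
  letI aA : LieAlgebra (ZMod (p ^ k)) A.L := zmodLie hkill
  haveI : IsScalarTower ℤ_[p] (ZMod (p ^ k)) A.L := by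
    refine ⟨fun a t x => ?_⟩
    rw [Algebra.smul_def, mul_smul]
    exact padic_smul_eq a (t • x)
  letI aL : LieAlgebra ℤ_[p] (LieOf hG) := padicLie k
  -- the projection
  have h1' : LieModule.lowerCentralSeries (ZMod (p ^ k)) A.L A.L (p - 1) = ⊥ :=
    lcs_scalar (R₁ := ℤ_[p]) (R₂ := ZMod (p ^ k)) (L := A.L) h1
  have hφ : ∀ x y, ff A h1 H e (x * y) =
      laz (lcsFil h1') (lcsFil_one h1') (ff A h1 H e x) (ff A h1 H e y) := by
    intro x y
    rw [ff_mul]
    exact (laz_scalar (R := ℤ_[p]) (R' := ZMod (p ^ k)) inv_padic one_le_pred _ _ _ _ _ _).symm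
  let f₀ := LieOf.toLie hG (lcsFil h1') (lcsFil_one h1') (ff A h1 H e) hφ
  let f : LieOf hG →ₗ⁅ℤ_[p]⁆ A.L :=
    { toFun := f₀
      map_add' := fun x y => map_add f₀ x y
      map_smul' := fun a x => by
        show f₀ ((PadicInt.toZModPow k a) • x) = a • f₀ x
        rw [map_smul]
        exact padic_smul_eq a (f₀ x)
      map_lie' := fun {x y} => LieHom.map_lie f₀ x y }
  -- the automorphism
  obtain ⟨s, hs⟩ := qq_surj A h1 H e (SemidirectProduct.inr ⟨thU p, Subgroup.mem_zpowers _⟩)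
  let σ₀ := LieOf.map hG hG (MulAut.conjNormal s).toMonoidHom
  let σ : LieOf hG →ₗ⁅ℤ_[p]⁆ LieOf hG :=
    { toFun := σ₀
      map_add' := fun x y => map_add σ₀ x y
      map_smul' := fun a x => map_smul σ₀ (PadicInt.toZModPow k a) x
      map_lie' := fun {x y} => LieHom.map_lie σ₀ x y }
  have hf : ∀ x : MM A h1 H e, f (LieOf.of hG x) = ff A h1 H e x := fun x => rfl
  have hσ : ∀ x : MM A h1 H e, σ (LieOf.of hG x) = LieOf.of hG (MulAut.conjNormal s x) :=
    fun x => rfl
  have hof : ∀ y : LieOf hG, y = LieOf.of hG (LieOf.gt hG y) := fun y => rfl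
  have hsp : s ^ p ∈ Subgroup.center H := by
    rw [← qq_eq_one A h1 H e, map_pow, hs, ← map_pow]
    have h3 : (⟨thU p, Subgroup.mem_zpowers _⟩ : Pg p) ^ p = 1 := by
      apply Subtype.ext
      apply Units.ext
      show ((thU p ^ p : (OO p)ˣ) : OO p) = 1
      rw [Units.val_pow_eq_pow_val]
      exact th_pow p
    rw [h3, map_one]
  refine ⟨LieOf hG, inferInstance, aL, σ, f, ?_, ?_, ?_, ?_, ?_⟩
  · intro l
    obtain ⟨x, hx⟩ := ff_surj A h1 H e l
    exact ⟨LieOf.of hG x, hx⟩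
  · have h3 : ∀ n (x : MM A h1 H e), σ^[n] (LieOf.of hG x) =
        LieOf.of hG (MulAut.conjNormal (s ^ n) x) := by
      intro n
      induction n with
      | zero => intro x; rw [pow_zero, map_one]; rfl
      | succ n ih =>
        intro x
        rw [Function.iterate_succ_apply, hσ, ih, pow_succ, map_mul]; rfl
    intro x
    rw [hof x, h3]
    congr 1
    apply Subtype.ext
    rw [MulAut.conjNormal_apply, ← Subgroup.mem_center_iff.1 hsp, mul_inv_cancel_right]
  · intro x
    rw [hof x, hσ, hf, hf]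
    have h3 : qq A h1 H e ((MulAut.conjNormal s (LieOf.gt hG x) : MM A h1 H e) : H) =
        SemidirectProduct.inl (A.phi h1 ⟨thU p, Subgroup.mem_zpowers _⟩
          (A.toG h1 (ff A h1 H e (LieOf.gt hG x)))) := by
      rw [MulAut.conjNormal_apply, map_mul, map_mul, map_inv, hs, qq_eq_inl,
        SemidirectProduct.inl_aut, map_inv]
    exact congrArg SemidirectProduct.left h3
  · intro z hz
    rw [hof z] at hz ⊢
    set x := LieOf.gt hG z
    rw [hf, ff_eq_zero] at hz
    refine ⟨?_, ?_, ?_⟩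
    · rw [hσ]
      congr 1
      apply Subtype.ext
      rw [MulAut.conjNormal_apply, Subgroup.mem_center_iff.1 hz s, mul_inv_cancel_right]
    · rw [Nat.cast_smul_eq_nsmul, ← LieOf.of_pow]
      have h3 : ∀ c : Subgroup.center H, c ^ p = 1 := fun c => by
        have h5 := pow_card_eq_one' (x := c)
        rwa [hZ] at h5
      have h6 : (x : H) ^ p = 1 := congrArg (fun c : Subgroup.center H => (c : H))
        (h3 ⟨(x : H), hz⟩)
      have h4 : x ^ p = 1 := Subtype.ext h6
      rw [h4]; rfl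
    · intro u
      rw [hof u]
      refine (LieOf.comm hG ?_).2
      apply Subtype.ext
      exact (Subgroup.mem_center_iff.1 hz _).symm
  · intro y hy hyu
    rw [hof y] at hy hyu ⊢
    set x := LieOf.gt hG y
    rw [hf, ff_eq_zero]
    rw [hσ] at hy
    have h3 : s * (x : H) = x * s := by
      have h4 : (MulAut.conjNormal s x : MM A h1 H e) = x := hy
      have h5 := congrArg Subtype.val h4
      rw [MulAut.conjNormal_apply] at h5
      rw [← mul_inv_eq_iff_eq_mul]
      exact h5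
    have h4 : ∀ u : MM A h1 H e, Commute x u := fun u =>
      LieOf.commute_of_lie hG (hyu (LieOf.of hG u))
    rw [Subgroup.mem_center_iff]
    intro g
    -- `g = u s^i`
    obtain ⟨i, hi⟩ := (qq A h1 H e g).right.2
    have h5 : g * (s ^ i)⁻¹ ∈ MM A h1 H e := by
      rw [MonoidHom.mem_ker, MonoidHom.comp_apply, map_mul, map_mul, map_inv, map_inv, map_zpow,
        hs, ← map_zpow, SemidirectProduct.rightHom_inr, mul_inv_eq_one]
      apply Subtype.ext
      rw [SubgroupClass.coe_zpow]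
      exact hi.symm
    have h6 := congrArg Subtype.val (h4 ⟨_, h5⟩).eq
    have h7 : (x : H) * (g * (s ^ i)⁻¹) = g * (s ^ i)⁻¹ * x := h6
    have h8 : Commute (x : H) s := h3.symm
    have h9 : Commute (x : H) (g * (s ^ i)⁻¹ * s ^ i) :=
      Commute.mul_right h7 (h8.zpow_right i)
    rw [inv_mul_cancel_right] at h9
    exact h9.symm

end Pool.Agent.helper40.FR
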