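import Pool.Agent.helper58.FR.CB3
import Pool.Agent.helper58.FR.JS
import Pool.Agent.helper54.FR.ST
import Pool.Agent.helper19.FR.NI0

/-!
# Collection of the modules
-/

namespace Pool.Agent.helper40.FR

open Polynomial Finset Pool.Agent.helper40.Laz

variable {p : ℕ} [hp : Fact p.Prime]

theorem not_mainline {r : ℕ} (β : BB p r) (hr : p + 1 ≤ r)
    (hJ : ∀ x y z, pi p ^ (r + 1) ∣ β.jac x y z) (h : (β.L (by omega) (r + 1) hJ).Nil (p - 1)) :
    ¬ Nonempty ((β.L (by omega) (r + 1) hJ).S h ≃* mainline p (r + 2)) :=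
  NI_main β hr hJ h fun t ht d hd => centralizer_S β hr (r + 1) hJ h t ht d hd

end Pool.Agent.helper40.FR
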