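import Pool.Agent.helper40.FR.Graph
import Pool.Agent.helper40.FR.GL
import Pool.Agent.helper40.FR.Mods

/-!
# Leaves of frames are terminal
-/

namespace Pool.Agent.helper40.FR

open Polynomial Finset Pool.Agent.helper40.Laz

variable {p : ℕ} [hp : Fact p.Prime]

theorem ELie.Nil.mono {A : ELie p} {c d : ℕ} (h : A.Nil c) (hcd : c ≤ d) : A.Nil d := by
  have h1 : LieModule.lowerCentralSeries ℤ_[p] A.L A.L c = ⊥ := h
  have h2 := LieModule.antitone_lowerCentralSeries ℤ_[p] A.L A.L hcd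
  rw [h1] at h2
  exact le_bot_iff.1 h2

/-- The inverse isomorphism. -/
noncomputable def EIso.symm {A B : ELie p} (f : EIso A B) : EIso B A where
  e := f.e.symm
  comm u x := by
    apply f.e.injective
    show f.e (f.e.symm (B.act u x)) = f.e (A.act u (f.e.symm x))
    rw [f.comm, LieEquiv.apply_symm_apply, LieEquiv.apply_symm_apply]

/-- Equality of the levels. -/
theorem BB.cast {r : ℕ} (β : BB p r) (hr : p ≤ r + 2) {n n' : ℕ} (h : n = n')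
    (hJ : ∀ x y z, pi p ^ n ∣ β.jac x y z) (hJ' : ∀ x y z, pi p ^ n' ∣ β.jac x y z) :
    β.L hr n hJ = β.L hr n' hJ' := by
  subst h; rfl

/-- Isomorphism of the groups for equal Lie rings. -/
theorem S_cast {A B : ELie p} (h : A = B) (hA : A.Nil (p - 1)) (hB : B.Nil (p - 1)) :
    Nonempty (A.S hA ≃* B.S hB) := by
  subst h; exact ⟨MulEquiv.refl _⟩

theorem nil_of_J (hp5 : 5 ≤ p) {j : ℕ} (γ : HH p j) (hj : p ≤ j) {m : ℕ} (hm : j ≤ m)
    (hJ : γ.J ≤ PP p ^ m) : (γ.L hj m hJ).Nil (p - 1) :=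
  (γ.iso hj hm hJ).nil ((class_bound hp5 γ.toBB (by omega) (m - j) _).mono (by omega))

section

variable {j : ℕ} (γ : HH p j) (hj : p ≤ j)

/-- `S_{j,m}(γ)` as a group built on `𝒪`. -/
theorem S_iso {m n : ℕ} (hmn : m = j + n) (hJ : γ.J ≤ PP p ^ m)
    (hn : (γ.L hj m hJ).Nil (p - 1)) :
    ∃ (hJ' : ∀ x y z, pi p ^ n ∣ γ.toBB.jac x y z)
      (hn' : (γ.toBB.L (by omega) n hJ').Nil (p - 1)),
      Nonempty ((γ.L hj m hJ).S hn ≃* (γ.toBB.L (by omega) n hJ').S hn') := by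
  have hm : j ≤ m := by omega
  have h1 := (γ.J_le hm).1 hJ
  have h2 : m - j = n := by omega
  subst h2
  have h3 := (γ.iso hj hm hJ).symm.nil hn
  exact ⟨h1, h3, ⟨(γ.iso hj hm hJ).symm.S hn h3⟩⟩

theorem card_S' {m n : ℕ} (hmn : m = j + n) (hJ : γ.J ≤ PP p ^ m)
    (hn : (γ.L hj m hJ).Nil (p - 1)) : Nat.card ((γ.L hj m hJ).S hn) = p ^ (n + 1) := by
  obtain ⟨hJ', hn', ⟨f⟩⟩ := S_iso γ hj hmn hJ hn
  rw [Nat.card_congr f.toEquiv, card_S γ.toBB (by omega) n hJ' hn']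

/-- The key step: `J_j(γ) ⊆ 𝔭^(m+1)` if `S_{j,m}(γ)` has an immediate descendant. -/
theorem J_step (hp5 : 5 ≤ p) {m : ℕ} (hm : 2 * j + 1 ≤ m) (hJ : γ.J ≤ PP p ^ m)
    (hn : (γ.L hj m hJ).Nil (p - 1)) (H : GrpCat.{0})
    (hH : Edge p (GrpCat.of ((γ.L hj m hJ).S hn)) H) : γ.J ≤ PP p ^ (m + 1) := by
  rw [γ.J_le (by omega)]
  rcases Nat.lt_or_ge m (2 * j + 2) with h | h
  · -- `m = 2 j + 1`
    have hm' : m + 1 - j = j + 2 := by omega
    rw [hm']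
    have h1 : ∀ x y z, pi p ^ (j + 2) ∣ γ.toBB.b (γ.toBB.b x y) z := by
      intro x y z
      exact (pow_dvd_pow _ (by omega)).trans (γ.toBB.dvd_of' (γ.toBB.dvd x y) z)
    intro x y z
    exact dvd_add (dvd_add (h1 x y z) (h1 y z x)) (h1 z x y)
  · obtain ⟨n, rfl⟩ : ∃ n, m = j + n := ⟨m - j, by omega⟩
    have hcard := card_S' γ hj rfl hJ hn
    obtain ⟨hH1, hH2⟩ := Edge.card hH hcard
    have hfin : Finite H := (Nat.card_pos_iff.1 (by rw [hH1]; positivity)).2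
    have hpg : IsPGroup p H := IsPGroup.of_card hH1
    obtain ⟨_, _, ⟨g⟩⟩ := hH
    have hfinS : Finite ((γ.L hj (j + n) hJ).S hn) :=
      (Nat.card_pos_iff.1 (by rw [hcard]; exact pow_pos hp.out.pos _)).2
    have hfinL : Finite (γ.L hj (j + n) hJ).L :=
      Finite.of_injective (fun x => (SemidirectProduct.inl (ELie.toG _ hn x) :
        (γ.L hj (j + n) hJ).S hn)) fun _ _ h => congrArg SemidirectProduct.left h
    obtain ⟨L', _, _, σ, f', hf, hσ, hfσ, hz, hc⟩ := exists_lie hp5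
      (γ.L hj (j + n) hJ) hn (γ.class_bound hp5 hj (by omega) hJ) H hpg hH2 g
    exact (γ.J_le (by omega)).1 (γ.jacobi_step hj h hJ L' σ f' hf hσ hfσ hz hc)

/-- The next vertex of the frame. -/
theorem next_vertex (hp5 : 5 ≤ p) {m : ℕ} (hm : 2 * j + 1 ≤ m) (hJ : γ.J ≤ PP p ^ m)
    (hn : (γ.L hj m hJ).Nil (p - 1)) (hJ2 : γ.J ≤ PP p ^ (m + 1))
    (hn2 : (γ.L hj (m + 1) hJ2).Nil (p - 1)) :
    MaxClass p ((γ.L hj (m + 1) hJ2).S hn2) ∧
    Nonempty (((γ.L hj (m + 1) hJ2).S hn2 ⧸ Subgroup.center _) ≃* (γ.L hj m hJ).S hn) := by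
  obtain ⟨n, rfl⟩ : ∃ n, m = j + n := ⟨m - j, by omega⟩
  obtain ⟨hJ', hn', ⟨f⟩⟩ := S_iso γ hj rfl hJ hn
  obtain ⟨hJ2', hn2', ⟨f2⟩⟩ := S_iso γ hj (m := j + n + 1) (n := n + 1) (by omega) hJ2 hn2
  refine ⟨MaxClass.congr f2.symm (maxClass_S γ.toBB (by omega) (n + 1) (by omega) hJ2' hn2'), ?_⟩
  obtain ⟨g⟩ := quot_center γ.toBB (by omega) n (by omega) hJ' hn' hJ2' hn2'
  exact ⟨((quotCenterCongr f2).trans g).trans f.symm⟩

end

/-- Leaves of frames are terminal. -/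
theorem final (hp5 : 5 ≤ p) (i : ℕ) (hi : p + 1 < i) (G : GrpCat.{0})
    (hG : Frame p (i - 2) (by omega) G)
    (hleaf : ∀ H : GrpCat.{0}, Frame p (i - 2) (by omega) H → ¬ Edge p G H)
    (H : GrpCat.{0}) (hH : Branch p i H) : ¬ Edge p G H := by
  intro hE
  obtain ⟨j, rfl⟩ : ∃ j, i = j + 2 := ⟨i - 2, by omega⟩
  have hj2 : j + 2 - 2 = j := by omega
  have hG' : Frame p j (by omega) G := hG
  have hleaf' : ∀ H : GrpCat.{0}, Frame p j (by omega) H → ¬ Edge p G H := hleaf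
  obtain ⟨hB, γ, m, hjm, hJ, hn, ⟨g⟩⟩ := hG'
  have hj : p ≤ j := by omega
  obtain ⟨n, hmn⟩ : ∃ n, m = j + n := ⟨m - j, by omega⟩
  have hcard : Nat.card G = p ^ (n + 1) := by
    rw [Nat.card_congr g.toEquiv, card_S' γ hj hmn hJ hn]
  -- `m ≥ 2 j + 1`
  have hm : 2 * j + 1 ≤ m := by
    have h1 := hB.2.1.card_le
    rw [card_mainline _ (by omega), hcard] at h1
    have h2 := (Nat.pow_le_pow_iff_right hp.out.one_lt).1 h1
    omega
  -- the next vertex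
  have hE' : Edge p (GrpCat.of ((γ.L hj m hJ).S hn)) H := hE.congr_left g
  have hJ2 := J_step γ hj hp5 hm hJ hn H hE'
  have hn2 := nil_of_J hp5 γ hj (m := m + 1) (by omega) hJ2
  obtain ⟨hmax, ⟨q⟩⟩ := next_vertex γ hj hp5 hm hJ hn hJ2 hn2
  have hcard2 : Nat.card ((γ.L hj (m + 1) hJ2).S hn2) = p ^ (n + 2) :=
    card_S' γ hj (n := n + 1) (by omega) hJ2 hn2
  have hES : Edge p G (GrpCat.of ((γ.L hj (m + 1) hJ2).S hn2)) :=
    ⟨hB.1, hmax, ⟨q.trans g.symm⟩⟩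
  refine hleaf' (GrpCat.of ((γ.L hj (m + 1) hJ2).S hn2)) ?_ hES
  refine ⟨⟨hmax, hB.2.1.step hES, ?_⟩, γ, m + 1, by omega, hJ2, hn2, ⟨MulEquiv.refl _⟩⟩
  intro hD
  rcases hD.parent hES with ⟨⟨f⟩⟩ | hD'
  · have h1 := Nat.card_congr f.toEquiv
    rw [card_mainline _ (by omega)] at h1
    have h2 : p ^ (n + 2) = p ^ (j + 2 + 1) := hcard2.symm.trans h1
    have h3 := Nat.pow_right_injective hp.out.two_le h2
    obtain ⟨hJ3, hn3, ⟨f3⟩⟩ := S_iso γ hj (m := m + 1) (n := j + 1 + 1) (by omega) hJ2 hn2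
    exact not_mainline γ.toBB (by omega) hJ3 hn3 ⟨f3.symm.trans f⟩
  · exact hB.2.2 hD'

end Pool.Agent.helper40.FR
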