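import Pool.Agent.helper40.FR.Bch
import Pool.Agent.helper40.FR.Fin

/-!
# The definitions of the statement and those of the proof
-/

namespace Pool.Agent.helper40.FS

open Finset Pool.Agent.helper40.Laz Pool.Agent.helper40.FR

variable {p : ℕ} [hp : Fact p.Prime]

theorem P_eq (t : ℕ) : P (th p) t = PP p ^ t := rfl

/-! ## The group `P` -/

theorem orderOf_thU : orderOf (thU p) = p := by
  have h := card_Pg0 (p := p)
  rwa [Nat.card_zpowers] at h

theorem zp_inj : Function.Injective
    (fun s : ZMod p => (⟨thU p ^ s.val, Subgroup.npow_mem_zpowers _ _⟩ : Pg p)) := by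
  intro s t h
  have h1 : thU p ^ s.val = thU p ^ t.val := congrArg Subtype.val h
  have : NeZero p := ⟨hp.out.ne_zero⟩
  have hs := ZMod.val_lt s
  have ht := ZMod.val_lt t
  have h2 := pow_injOn_Iio_orderOf (x := thU p) (by rw [Set.mem_Iio, orderOf_thU]; exact hs)
    (by rw [Set.mem_Iio, orderOf_thU]; exact ht) h1
  exact ZMod.val_injective p h2

/-- The elements of `ℤ / p` stand for the powers of `θ`. -/
noncomputable def zpE : ZMod p ≃ Pg p :=
  Equiv.ofBijective (fun s : ZMod p => (⟨thU p ^ s.val, Subgroup.npow_mem_zpowers _ _⟩ : Pg p)) (by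
    have : NeZero p := ⟨hp.out.ne_zero⟩
    have : Finite (Pg p) := (Nat.card_pos_iff.1 (by rw [card_Pg0]; exact hp.out.pos)).2
    refine Function.Injective.bijective_of_nat_card_le zp_inj ?_
    rw [card_Pg0, Nat.card_zmod])

theorem zpE_coe (s : ZMod p) : ((zpE s : (OO p)ˣ) : OO p) = th p ^ s.val := by
  show ((thU p ^ s.val : (OO p)ˣ) : OO p) = th p ^ s.val
  rw [Units.val_pow_eq_pow_val]; rfl

theorem zpE_add (s t : ZMod p) : zpE (s + t) = zpE s * zpE t := by
  have : NeZero p := ⟨hp.out.ne_zero⟩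
  apply Subtype.ext
  show thU p ^ (s + t).val = thU p ^ s.val * thU p ^ t.val
  rw [ZMod.val_add, ← pow_add]
  have h := pow_mod_orderOf (thU p) (s.val + t.val)
  rwa [orderOf_thU] at h

/-! ## Semidirect products -/

theorem isSemi_iff {M : Type} [AddCommGroup M] [Module (OO p) M] {A : Type} [Group A]
    (φ : Pg p →* MulAut A) (op : M → M → M) (a : M ≃ A) (hop : ∀ x y, a (op x y) = a x * a y)
    (hφ : ∀ (u : Pg p) x, φ u (a x) = a (((u : (OO p)ˣ) : OO p) • x)) (G : Type) [Group G] :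
    IsSemi p (th p) op G ↔ Nonempty (G ≃* A ⋊[φ] Pg p) := by
  constructor
  · rintro ⟨e, he⟩
    refine ⟨{ toFun := fun g => ⟨a (e g).1, zpE (e g).2⟩
              invFun := fun s => e.symm (a.symm s.left, zpE.symm s.right)
              left_inv := fun g => ?_
              right_inv := fun s => ?_
              map_mul' := fun g h => ?_ }⟩
    · show e.symm (a.symm (a (e g).1), zpE.symm (zpE (e g).2)) = g
      rw [Equiv.symm_apply_apply, Equiv.symm_apply_apply, Prod.mk.eta, Equiv.symm_apply_apply]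
    · apply SemidirectProduct.ext
      · show a (e (e.symm (a.symm s.left, zpE.symm s.right))).1 = s.left
        rw [Equiv.apply_symm_apply, Equiv.apply_symm_apply]
      · show zpE (e (e.symm (a.symm s.left, zpE.symm s.right))).2 = s.right
        rw [Equiv.apply_symm_apply, Equiv.apply_symm_apply]
    · apply SemidirectProduct.ext
      · show a (e (g * h)).1 = a (e g).1 * φ (zpE (e g).2) (a (e h).1)
        rw [he, hop, hφ, zpE_coe]
      · show zpE (e (g * h)).2 = zpE (e g).2 * zpE (e h).2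
        rw [he, zpE_add]
  · rintro ⟨f⟩
    refine ⟨{ toFun := fun g => (a.symm (f g).left, zpE.symm (f g).right)
              invFun := fun s => f.symm ⟨a s.1, zpE s.2⟩
              left_inv := fun g => ?_
              right_inv := fun s => ?_ }, fun g h => ?_⟩
    · show f.symm ⟨a (a.symm (f g).left), zpE (zpE.symm (f g).right)⟩ = g
      rw [Equiv.apply_symm_apply, Equiv.apply_symm_apply]
      exact f.symm_apply_apply g
    · show (a.symm (f (f.symm ⟨a s.1, zpE s.2⟩)).left, zpE.symm (f (f.symm ⟨a s.1, zpE s.2⟩)).right)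
        = s
      rw [MulEquiv.apply_symm_apply, Equiv.symm_apply_apply, Equiv.symm_apply_apply]
    · apply Prod.ext
      · show a.symm (f (g * h)).left =
          op (a.symm (f g).left) (th p ^ (zpE.symm (f g).right).val • a.symm (f h).left)
        apply a.injective
        rw [Equiv.apply_symm_apply, hop, ← zpE_coe, ← hφ, Equiv.apply_symm_apply,
          Equiv.apply_symm_apply, Equiv.apply_symm_apply, map_mul]; rfl
      · show zpE.symm (f (g * h)).right = zpE.symm (f g).right + zpE.symm (f h).right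
        apply zpE.injective
        rw [Equiv.apply_symm_apply, zpE_add, Equiv.apply_symm_apply, Equiv.apply_symm_apply,
          map_mul]; rfl

/-! ## Lie rings -/

section

variable {M : Type} [AddCommGroup M] [Module (OO p) M] [Module ℤ_[p] M]
  [IsScalarTower ℤ_[p] (OO p) M] (D : QData p M)

theorem lnb_mem {L : Type} [LieRing L] [LieAlgebra ℤ_[p] L] (l : List L) (x : L) :
    lnb (fun x y => ⁅x, y⁆) (x :: l) ∈ LieModule.lowerCentralSeries ℤ_[p] L L l.length := by
  show l.foldl (fun x y => ⁅x, y⁆) x ∈ _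
  induction l using List.reverseRecOn with
  | nil => exact LieSubmodule.mem_top x
  | append_singleton l y ih =>
    rw [List.foldl_append, List.foldl_cons, List.foldl_nil, List.length_append,
      List.length_singleton, LieModule.lowerCentralSeries_succ, ← lie_skew]
    exact neg_mem (LieSubmodule.lie_mem_lie (LieSubmodule.mem_top y) ih)

theorem classLE {L : Type} [LieRing L] [LieAlgebra ℤ_[p] L] {c : ℕ}
    (h : LieModule.lowerCentralSeries ℤ_[p] L L c = ⊥) :
    ClassLE (fun x y : L => ⁅x, y⁆) c := by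
  intro l hl
  cases l with
  | nil => simp at hl
  | cons x l =>
    have h1 := lnb_mem (p := p) l x
    rw [List.length_cons] at hl
    rw [show l.length = c by omega, h, LieSubmodule.mem_bot] at h1
    exact h1

theorem isLaz_iff (h : D.toELie.Nil (p - 1)) (G : Type) [Group G] :
    IsLaz p (th p) (fun x y => D.br x y) D.N G ↔ Nonempty (G ≃* D.toELie.S h) := by
  have key : IsSemi p (th p) (bch p (fun x y : D.L => ⁅x, y⁆)) G ↔
      Nonempty (G ≃* D.toELie.S h) :=
    isSemi_iff (M := D.L) (A := D.toELie.G h) (D.toELie.phi h) _ (Equiv.refl D.L)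
      (fun x y => bch_eq (lcsFil h) (lcsFil_one h) x y) (fun u x => rfl) G
  rw [← key]
  constructor
  · rintro ⟨br, hbr, _, hs⟩
    have h1 : br = fun x y : D.L => ⁅x, y⁆ := by
      funext x y
      obtain ⟨x, rfl⟩ := Submodule.Quotient.mk_surjective _ x
      obtain ⟨y, rfl⟩ := Submodule.Quotient.mk_surjective _ y
      exact hbr x y
    rw [← h1]
    exact hs
  · intro hs
    exact ⟨fun x y : D.L => ⁅x, y⁆, fun _ _ => rfl, classLE (L := D.L) h, hs⟩

end

/-! ## The sets `Ĥ_j` -/

section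

variable {j : ℕ}

theorem IsAlt.skew {M : Type} [AddCommGroup M] [Module (OO p) M] [Module ℤ_[p] M]
    {γ : M → M → M} (h : IsAlt p (th p) γ) (x y : M) : γ x y = -γ y x := by
  have h1 := h.alt (x + y)
  rw [h.add_left, h.add_right, h.add_right, h.alt, h.alt, zero_add, add_zero] at h1
  exact eq_neg_of_add_eq_zero_left h1

/-- An element of `Ĥ_j` in the sense of the proof. -/
noncomputable def toHH (γ : ↥(PP p ^ j) → ↥(PP p ^ j) → ↥(PP p ^ j))
    (h : IsHat p (th p) j γ) : HH p j where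
  g := LinearMap.mk₂ ℤ_[p] (fun x y => (γ x y : OO p))
    (fun x y z => congrArg Subtype.val (h.1.add_left x y z))
    (fun a x y => congrArg Subtype.val (h.1.smul_left a x y))
    (fun x y z => congrArg Subtype.val (h.1.add_right x y z))
    (fun a x y => by
      have h1 : γ x (a • y) = a • γ x y := by
        have h2 : γ x (a • y) = -γ (a • y) x := h.1.skew x (a • y)
        have h3 : γ (a • y) x = a • γ y x := h.1.smul_left a y x
        have h4 : γ x y = -γ y x := h.1.skew x y
        rw [h2, h3, h4, smul_neg]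
      exact congrArg Subtype.val h1)
  alt x := congrArg Subtype.val (h.1.alt x)
  equi x y := congrArg Subtype.val (h.1.equi x y)
  surj := by
    have h1 : Submodule.span ℤ_[p] {z : OO p | ∃ x y : ↥(PP p ^ j), (γ x y : OO p) = z} =
      (PP p ^ (2 * j + 1)).restrictScalars ℤ_[p] := h.2
    rw [← h1]
    congr 1
    ext z
    constructor
    · rintro ⟨q, rfl⟩; exact ⟨q.1, q.2, rfl⟩
    · rintro ⟨x, y, rfl⟩; exact ⟨(x, y), rfl⟩

theorem toHH_br (γ : ↥(PP p ^ j) → ↥(PP p ^ j) → ↥(PP p ^ j))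
    (h : IsHat p (th p) j γ) (x y : ↥(PP p ^ j)) : (toHH γ h).br x y = γ x y := rfl

theorem toHH_J (γ : ↥(PP p ^ j) → ↥(PP p ^ j) → ↥(PP p ^ j))
    (h : IsHat p (th p) j γ) : (toHH γ h).J = J (th p) γ := rfl

theorem exists_toHH (γ : HH p j) : ∃ (γ' : ↥(PP p ^ j) → ↥(PP p ^ j) → ↥(PP p ^ j))
    (h : IsHat p (th p) j γ'), toHH γ' h = γ := by
  have h : IsHat p (th p) j (fun x y => γ.br x y) := by
    refine ⟨⟨fun x y z => ?_, fun x y z => ?_, fun a x y => ?_, fun x => ?_, fun x y => ?_⟩, ?_⟩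
    · exact congrFun (congrArg DFunLike.coe (map_add γ.br x y)) z
    · exact map_add (γ.br x) y z
    · exact congrFun (congrArg DFunLike.coe (map_smul γ.br a x)) y
    · exact Subtype.ext (γ.alt x)
    · exact Subtype.ext (γ.equi x y)
    · show Submodule.span ℤ_[p] {z : OO p | ∃ x y : ↥(PP p ^ j), (γ.br x y : OO p) = z} =
        (PP p ^ (2 * j + 1)).restrictScalars ℤ_[p]
      rw [← γ.surj]
      congr 1
      ext z
      constructor
      · rintro ⟨x, y, rfl⟩; exact ⟨(x, y), rfl⟩
      · rintro ⟨q, rfl⟩; exact ⟨q.1, q.2, rfl⟩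
  refine ⟨_, h, ?_⟩
  cases γ
  rfl

theorem isS_iff (hp5 : 5 ≤ p) (hj : p ≤ j) (γ : ↥(PP p ^ j) → ↥(PP p ^ j) → ↥(PP p ^ j))
    (h : IsHat p (th p) j γ) (m : ℕ) (G : Type) [Group G] :
    IsS p (th p) γ m G ↔ ∃ (_ : j ≤ m) (hJ : (toHH γ h).J ≤ PP p ^ m)
      (hn : ((toHH γ h).L hj m hJ).Nil (p - 1)), Nonempty (G ≃* ((toHH γ h).L hj m hJ).S hn) := by
  constructor
  · rintro ⟨hm, hJ, hG⟩
    have hJ' : (toHH γ h).J ≤ PP p ^ m := hJ
    have hn := nil_of_J hp5 (toHH γ h) hj hm hJ'
    exact ⟨hm, hJ', hn, (isLaz_iff _ hn G).1 hG⟩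
  · rintro ⟨hm, hJ, hn, hG⟩
    exact ⟨hm, hJ, (isLaz_iff _ hn G).2 hG⟩

end

/-! ## Branches and frames -/

theorem isMain_iff (i : ℕ) (G : Type) [Group G] :
    IsMain p (th p) i G ↔ Nonempty (G ≃* mainline p i) :=
  isSemi_iff (M := OO p ⧸ PP p ^ (i - 1)) (mainPhi p i) _ Multiplicative.ofAdd
    (fun _ _ => rfl) (fun _ _ => rfl) G

omit hp in
theorem transGen_congr {S S' G : GrpCat.{0}} (e : S ≃* S')
    (h : Relation.TransGen (FR.Edge p) S G) : Relation.TransGen (FR.Edge p) S' G := by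
  induction h with
  | single h => exact Relation.TransGen.single (h.congr_left e)
  | tail _ h ih => exact Relation.TransGen.tail ih h

theorem desc_iff (i : ℕ) (G : GrpCat.{0}) :
    (∃ S : GrpCat.{0}, IsMain p (th p) i S ∧ Relation.ReflTransGen (Edge p) S G) ↔
      Desc p (mainline p i) G := by
  constructor
  · rintro ⟨S, hS, h⟩
    obtain ⟨e⟩ := (isMain_iff i S).1 hS
    rcases Relation.reflTransGen_iff_eq_or_transGen.1 h with h | h
    · subst h; exact Or.inl ⟨e⟩
    · exact Or.inr (transGen_congr e h)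
  · rintro (h | h)
    · exact ⟨G, (isMain_iff i G).2 h, Relation.ReflTransGen.refl⟩
    · exact ⟨mainline p i, (isMain_iff i _).2 ⟨MulEquiv.refl _⟩, h.to_reflTransGen⟩

theorem branch_iff (i : ℕ) (G : GrpCat.{0}) : Branch p (th p) i G ↔ FR.Branch p i G := by
  unfold Branch FR.Branch
  rw [desc_iff, desc_iff]; rfl

theorem frame_iff (hp5 : 5 ≤ p) {j : ℕ} (hj : p ≤ j) (G : GrpCat.{0}) :
    Frame p (th p) (j + 2) G ↔ FR.Frame p j hj G := by
  unfold Frame FR.Frame
  rw [branch_iff]
  refine and_congr Iff.rfl ?_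
  constructor
  · rintro ⟨γ, hγ, m, hm⟩
    exact ⟨toHH γ hγ, m, (isS_iff hp5 hj γ hγ m G).1 hm⟩
  · rintro ⟨γ, m, hm⟩
    obtain ⟨γ', hγ', rfl⟩ := exists_toHH γ
    exact ⟨γ', hγ', m, (isS_iff hp5 hj γ' hγ' m G).2 hm⟩

/-- Leaves of frames are terminal. -/
theorem leaf_terminal (hp5 : 5 ≤ p) (i : ℕ) (hi : p + 1 < i) (G : GrpCat.{0})
    (hG : IsLeaf p (th p) i G) : IsTerminal p (th p) i G := by
  obtain ⟨j, rfl⟩ : ∃ j, i = j + 2 := ⟨i - 2, by omega⟩
  have hj : p ≤ j := by omega
  obtain ⟨h1, h2⟩ := hG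
  refine ⟨h1.1, fun H hH => ?_⟩
  exact final hp5 (j + 2) hi G ((frame_iff hp5 hj G).1 h1)
    (fun K hK => h2 K ((frame_iff hp5 hj K).2 hK)) H ((branch_iff _ H).1 hH)

end Pool.Agent.helper40.FS
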