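import Pool.Agent.helper40.FR.Fin

/-!
# The definitions are as intended: the mainline is an infinite path, and all groups `S_{j,m}(γ)`,
`m ≥ 2 j + 1`, belong to the branch `ℬ_{j+2}`
-/

namespace Pool.Agent.helper40.FR

open Polynomial Finset Pool.Agent.helper40.Laz

variable {p : ℕ} [hp : Fact p.Prime]

section

variable {r : ℕ} (β : BB p r) (hr : p ≤ r + 2) (n : ℕ) (hn : n ≤ r)
  (hJ : ∀ x y z, pi p ^ n ∣ β.jac x y z) (h : (β.L hr n hJ).Nil (p - 1))

include hn in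
theorem BB.lie_zero (x y : (β.L hr n hJ).L) : ⁅x, y⁆ = 0 := by
  obtain ⟨a, rfl⟩ := β.cl_surjective hr n hJ x
  obtain ⟨b, rfl⟩ := β.cl_surjective hr n hJ y
  rw [β.cl_lie, β.cl_eq_zero]
  exact (pow_dvd_pow _ hn).trans (β.dvd a b)

/-- For `n ≤ r` the group is the mainline group. -/
noncomputable def BB.mainIso : (β.L hr n hJ).S h ≃* mainline p (n + 1) :=
  SemidirectProduct.congr
    ({ toFun := fun x => Multiplicative.ofAdd (ELie.ofG _ h x)
       invFun := fun x => ELie.toG _ h (Multiplicative.toAdd x)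
       left_inv := fun _ => rfl
       right_inv := fun _ => rfl
       map_mul' := fun x y => laz_of_comm (lcsFil h) (lcsFil_one h) inv_padic one_le_pred
        (β.lie_zero hr n hn hJ x y) } :
      (β.L hr n hJ).G h ≃* Multiplicative (OO p ⧸ PP p ^ (n + 1 - 1)))
    (MulEquiv.refl _) (by intro u; rfl)

end

/-- If `Ĥ_j` is not empty then the mainline groups of order up to `p ^ (j+2)` form a path. -/
theorem mainline_edge_of (hp5 : 5 ≤ p) {j : ℕ} (hj : p ≤ j) (γ : HH p j) (i : ℕ) (hi : 2 ≤ i)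
    (hij : i ≤ j + 1) : Edge p (mainline p i) (mainline p (i + 1)) := by
  obtain ⟨n, rfl⟩ : ∃ n, i = n + 1 := ⟨i - 1, by omega⟩
  have hr : p ≤ (j + 1) + 2 := by omega
  have hJ : ∀ n, n ≤ j + 1 → ∀ x y z, pi p ^ n ∣ γ.toBB.jac x y z := by
    intro n hn x y z
    have h1 : ∀ x y z, pi p ^ n ∣ γ.toBB.b (γ.toBB.b x y) z := fun x y z =>
      (pow_dvd_pow _ hn).trans (γ.toBB.dvd _ _)
    exact dvd_add (dvd_add (h1 x y z) (h1 y z x)) (h1 z x y)
  have hN : ∀ n (hn : n ≤ j + 1), (γ.toBB.L hr n (hJ n hn)).Nil (p - 1) := fun n hn =>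
    (class_bound hp5 γ.toBB (by omega) n (hJ n hn)).mono (by omega)
  have h1 := maxClass_S γ.toBB (by omega) n (by omega) (hJ n (by omega)) (hN n (by omega))
  have h2 := maxClass_S γ.toBB (by omega) (n + 1) (by omega) (hJ (n + 1) (by omega))
    (hN (n + 1) (by omega))
  obtain ⟨f⟩ := quot_center γ.toBB (by omega) n (by omega) (hJ n (by omega)) (hN n (by omega))
    (hJ (n + 1) (by omega)) (hN (n + 1) (by omega))
  let e1 := γ.toBB.mainIso hr n (by omega) (hJ n (by omega)) (hN n (by omega))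
  let e2 := γ.toBB.mainIso hr (n + 1) (by omega) (hJ (n + 1) (by omega)) (hN (n + 1) (by omega))
  exact ⟨h1.congr e1, h2.congr e2, ⟨((quotCenterCongr e2).symm.trans f).trans e1⟩⟩

/-- All groups `S_{j,m}(γ)` with `m ≥ 2 j + 1` and `J_j(γ) ⊆ 𝔭^m` belong to the frame. -/
theorem frame_mem (hp5 : 5 ≤ p) {j : ℕ} (hj : p ≤ j) (γ : HH p j) (m : ℕ) (hm : 2 * j + 1 ≤ m)
    (hJ : γ.J ≤ PP p ^ m) : ∃ hn : (γ.L hj m hJ).Nil (p - 1),
      Frame p j hj (GrpCat.of ((γ.L hj m hJ).S hn)) := by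
  have hn := nil_of_J hp5 γ hj (by omega : j ≤ m) hJ
  refine ⟨hn, ?_, γ, m, by omega, hJ, hn, ⟨MulEquiv.refl _⟩⟩
  induction m, hm using Nat.le_induction with
  | base =>
    obtain ⟨hJ', hn', ⟨f⟩⟩ := S_iso γ hj (m := 2 * j + 1) (n := j + 1) (by omega) hJ hn
    let e := γ.toBB.mainIso (by omega : p ≤ (j + 1) + 2) (j + 1) le_rfl hJ' hn'
    refine ⟨MaxClass.congr f.symm (maxClass_S γ.toBB (by omega) (j + 1) (by omega) hJ' hn'),
      Or.inl ⟨f.trans e⟩, fun hD => ?_⟩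
    have h1 := hD.card_le
    rw [card_mainline _ (by omega)] at h1
    have h2 : Nat.card (GrpCat.of ((γ.L hj (2 * j + 1) hJ).S hn)) = p ^ (j + 1 + 1) :=
      card_S' γ hj (by omega) hJ hn
    rw [h2] at h1
    have h3 := (Nat.pow_le_pow_iff_right hp.out.one_lt).1 h1
    omega
  | succ m hm ih =>
    have hJ1 : γ.J ≤ PP p ^ m := hJ.trans (Ideal.pow_le_pow_right (Nat.le_succ m))
    have hn1 := nil_of_J hp5 γ hj (by omega : j ≤ m) hJ1
    have hB := ih hJ1 hn1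
    obtain ⟨hmax, ⟨q⟩⟩ := next_vertex γ hj hp5 hm hJ1 hn1 hJ hn
    have hES : Edge p (GrpCat.of ((γ.L hj m hJ1).S hn1)) (GrpCat.of ((γ.L hj (m + 1) hJ).S hn)) :=
      ⟨hB.1, hmax, ⟨q⟩⟩
    refine ⟨hmax, hB.2.1.step hES, fun hD => ?_⟩
    rcases hD.parent hES with ⟨⟨f⟩⟩ | hD'
    · obtain ⟨n, hmn⟩ : ∃ n, m = j + n := ⟨m - j, by omega⟩
      have hcard2 : Nat.card ((γ.L hj (m + 1) hJ).S hn) = p ^ (n + 2) :=
        card_S' γ hj (n := n + 1) (by omega) hJ hn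
      have h1 := Nat.card_congr f.toEquiv
      rw [card_mainline _ (by omega)] at h1
      have h2 : p ^ (n + 2) = p ^ (j + 2 + 1) := hcard2.symm.trans h1
      have h3 := Nat.pow_right_injective hp.out.two_le h2
      obtain ⟨hJ3, hn3, ⟨f3⟩⟩ := S_iso γ hj (m := m + 1) (n := j + 1 + 1) (by omega) hJ hn
      exact not_mainline γ.toBB (by omega) hJ3 hn3 ⟨f3.symm.trans f⟩
    · exact hB.2.2 hD'

end Pool.Agent.helper40.FR
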