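import Pool.Agent.helper40.FR.Bridge
import Pool.Agent.helper40.FR.NV
import Pool.Agent.helper71.FR.RG

/-!
# The definitions of the statement are as intended

The mainline is an infinite path, `Ĥ_j` is not empty, and for `γ ∈ Ĥ_j`, `m ≥ 2 j + 1` and
`J_j(γ) ⊆ 𝔭^m` there is a group `S_{j,m}(γ)` and it belongs to the frame `ℱ_{j+2}`.
-/

namespace Pool.Agent.helper40.FS

open Finset Pool.Agent.helper40.Laz Pool.Agent.helper40.FR

variable {p : ℕ} [hp : Fact p.Prime]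

/-- `𝒪` is a discrete valuation ring. -/
theorem isDVR : ∃ _ : IsDomain (OO p), IsDiscreteValuationRing (OO p) :=
  ⟨OO_isDomain, @OO_dvr p hp OO_isDomain⟩

theorem exists_isHat (hp5 : 5 ≤ p) (j : ℕ) :
    ∃ γ : P (th p) j → P (th p) j → P (th p) j, IsHat p (th p) j γ := by
  obtain ⟨γ⟩ := HH_nonempty hp5 j
  obtain ⟨γ', h, _⟩ := exists_toHH γ
  exact ⟨γ', h⟩

/-- The mainline groups exist and form an infinite path. -/
theorem exists_main (i : ℕ) : ∃ S : GrpCat.{0}, IsMain p (th p) i S :=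
  ⟨mainline p i, (isMain_iff i _).2 ⟨MulEquiv.refl _⟩⟩

theorem main_edge (hp5 : 5 ≤ p) (i : ℕ) (hi : 2 ≤ i) (S S' : GrpCat.{0})
    (hS : IsMain p (th p) i S) (hS' : IsMain p (th p) (i + 1) S') : Edge p S S' := by
  obtain ⟨γ⟩ := HH_nonempty hp5 (p + i)
  obtain ⟨e⟩ := (isMain_iff i S).1 hS
  obtain ⟨e'⟩ := (isMain_iff (i + 1) S').1 hS'
  have h := mainline_edge_of hp5 (by omega) γ i hi (by omega)
  exact (h.congr_left e.symm).congr_right e'.symm

theorem card_main (i : ℕ) (hi : 1 ≤ i) (S : GrpCat.{0}) (hS : IsMain p (th p) i S) :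
    Nat.card S = p ^ i := by
  obtain ⟨e⟩ := (isMain_iff i S).1 hS
  rw [Nat.card_congr e.toEquiv, card_mainline i hi]

/-- The groups `S_{j,m}(γ)` exist and belong to the frame. -/
theorem exists_frame (hp5 : 5 ≤ p) (j : ℕ) (hj : p ≤ j) (γ : P (th p) j → P (th p) j → P (th p) j)
    (h : IsHat p (th p) j γ) (m : ℕ) (hm : 2 * j + 1 ≤ m) (hJ : J (th p) γ ≤ P (th p) m) :
    ∃ G : GrpCat.{0}, IsS p (th p) γ m G ∧ Frame p (th p) (j + 2) G := by
  obtain ⟨hn, hF⟩ := frame_mem hp5 hj (toHH γ h) m hm hJ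
  refine ⟨_, (isS_iff hp5 hj γ h m _).2 ⟨by omega, hJ, hn, ⟨MulEquiv.refl _⟩⟩,
    (frame_iff hp5 hj _).2 hF⟩

end Pool.Agent.helper40.FS
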