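import Pool.Agent.helper40.FR.B

/-!
# The graph of finite `p`-groups of maximal class
-/

namespace Pool.Agent.helper40.FR

open Polynomial Finset Pool.Agent.helper40.Laz

variable {p : ℕ} [hp : Fact p.Prime]

theorem nilpotencyClass_congr {G G' : Type*} [Group G] [Group G'] (e : G ≃* G') :
    Group.nilpotencyClass G = Group.nilpotencyClass G' := by
  by_cases h : Group.IsNilpotent G
  · have h' : Group.IsNilpotent G' := Group.nilpotent_of_mulEquiv e
    refine le_antisymm ?_ ?_
    · exact Group.nilpotencyClass_le_of_surjective e.symm.toMonoidHom e.symm.surjective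
    · exact Group.nilpotencyClass_le_of_surjective e.toMonoidHom e.surjective
  · have h' : ¬ Group.IsNilpotent G' := fun h' => h (Group.nilpotent_of_mulEquiv e.symm)
    rw [Group.nilpotencyClass_of_not_nilpotent h, Group.nilpotencyClass_of_not_nilpotent h']

omit hp in
theorem MaxClass.congr {G G' : Type} [Group G] [Group G'] (e : G ≃* G') (h : MaxClass p G) :
    MaxClass p G' := by
  obtain ⟨n, hn, hc, hcl⟩ := h
  exact ⟨n, hn, by rw [← Nat.card_congr e.toEquiv, hc], by rw [← nilpotencyClass_congr e, hcl]⟩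

/-- The central quotients of isomorphic groups are isomorphic. -/
noncomputable def quotCenterCongr {G G' : Type*} [Group G] [Group G'] (e : G ≃* G') :
    (G ⧸ Subgroup.center G) ≃* (G' ⧸ Subgroup.center G') :=
  QuotientGroup.congr (Subgroup.center G) (Subgroup.center G') e (by
    ext x
    rw [Subgroup.mem_map]
    constructor
    · rintro ⟨y, hy, rfl⟩
      rw [Subgroup.mem_center_iff] at hy ⊢
      intro g
      obtain ⟨g, rfl⟩ := e.surjective g
      have := congrArg e (hy g)
      rwa [map_mul, map_mul] at this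
    · intro hx
      refine ⟨e.symm x, ?_, e.apply_symm_apply x⟩
      rw [Subgroup.mem_center_iff] at hx ⊢
      intro g
      apply e.injective
      rw [map_mul, map_mul, e.apply_symm_apply]
      exact hx (e g))

omit hp in
theorem Edge.congr_right {G H H' : GrpCat.{0}} (e : H ≃* H') (h : Edge p G H) : Edge p G H' := by
  obtain ⟨h1, h2, ⟨f⟩⟩ := h
  exact ⟨h1, h2.congr e, ⟨(quotCenterCongr e).symm.trans f⟩⟩

omit hp in
theorem Edge.congr_left {G G' H : GrpCat.{0}} (e : G ≃* G') (h : Edge p G H) : Edge p G' H := by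
  obtain ⟨h1, h2, ⟨f⟩⟩ := h
  exact ⟨h1.congr e, h2, ⟨f.trans e⟩⟩

omit hp in
theorem Desc.congr {G H H' : GrpCat.{0}} (e : H ≃* H') (h : Desc p G H) : Desc p G H' := by
  rcases h with ⟨⟨f⟩⟩ | h
  · exact Or.inl ⟨e.symm.trans f⟩
  · right
    cases h with
    | single h => exact Relation.TransGen.single (h.congr_right e)
    | tail h1 h2 => exact Relation.TransGen.tail h1 (h2.congr_right e)

omit hp in
theorem Desc.step {G H K : GrpCat.{0}} (h : Desc p G H) (e : Edge p H K) : Desc p G K := by
  rcases h with ⟨⟨f⟩⟩ | h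
  · exact Or.inr (Relation.TransGen.single (e.congr_left f))
  · exact Or.inr (Relation.TransGen.tail h e)

omit hp in
/-- A descendant is isomorphic to the group or a descendant of it has it as parent. -/
theorem Desc.parent {G H K : GrpCat.{0}} (h : Desc p G K) (e : Edge p H K) :
    Nonempty (K ≃* G) ∨ Desc p G H := by
  rcases h with h | h
  · exact Or.inl h
  · right
    obtain ⟨_, _, ⟨f⟩⟩ := e
    cases h with
    | single h =>
      obtain ⟨_, _, ⟨g⟩⟩ := h
      exact Or.inl ⟨f.symm.trans g⟩
    | tail h1 h2 =>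
      obtain ⟨_, _, ⟨g⟩⟩ := h2
      exact Desc.congr (g.symm.trans f) (Or.inr h1)

/-- The order and the class of an immediate descendant. -/
theorem Edge.card {G H : GrpCat.{0}} (h : Edge p G H) {n : ℕ} (hn : Nat.card G = p ^ n) :
    Nat.card H = p ^ (n + 1) ∧ Nat.card (Subgroup.center H) = p := by
  obtain ⟨⟨a, ha2, ha, hac⟩, ⟨b, hb2, hb, hbc⟩, ⟨f⟩⟩ := h
  have hpp := hp.out.one_lt
  have han : a = n := Nat.pow_right_injective hpp (ha.symm.trans hn)
  have hfin : Finite H := (Nat.card_pos_iff.1 (by rw [hb]; positivity)).2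
  have hpg : IsPGroup p H := IsPGroup.of_card hb
  have hnil : Group.IsNilpotent H := hpg.isNilpotent
  have h1 : Group.nilpotencyClass (H ⧸ Subgroup.center H) = Group.nilpotencyClass H - 1 :=
    Group.nilpotencyClass_quotient_center
  rw [nilpotencyClass_congr f, hac, hbc] at h1
  have hbn : b = n + 1 := by omega
  have h2 : Nat.card H = Nat.card (H ⧸ Subgroup.center H) * Nat.card (Subgroup.center H) :=
    Subgroup.card_eq_card_quotient_mul_card_subgroup _
  rw [Nat.card_congr f.toEquiv, hn, hb, hbn, pow_succ] at h2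
  refine ⟨by rw [hb, hbn], ?_⟩
  exact (Nat.eq_of_mul_eq_mul_left (pow_pos hp.out.pos n) h2).symm

theorem Edge.card_le {G H : GrpCat.{0}} (h : Edge p G H) : Nat.card G ≤ Nat.card H := by
  obtain ⟨⟨a, ha2, ha, hac⟩, _, _⟩ := id h
  rw [(h.card ha).1, ha]
  exact Nat.pow_le_pow_right hp.out.pos (Nat.le_succ a)

theorem Desc.card_le {G H : GrpCat.{0}} (h : Desc p G H) : Nat.card G ≤ Nat.card H := by
  rcases h with ⟨⟨f⟩⟩ | h
  · exact (Nat.card_congr f.toEquiv).ge
  · induction h with
    | single h => exact h.card_le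
    | tail _ h ih => exact ih.trans h.card_le

theorem pi_ne_zero : pi p ≠ 0 := by
  intro h
  have h1 := p_smul_inj (p := p) (x := 1) (by
    obtain ⟨ε, _, _, hε⟩ := exists_eps (p := p)
    have h2 := hp.out.two_le
    rw [hε, h, zero_pow (by omega), mul_zero, zero_mul])
  exact one_ne_zero h1

theorem card_Pg0 : Nat.card (Pg p) = p := by
  rw [Nat.card_zpowers]
  refine orderOf_eq_prime ?_ ?_
  · apply Units.ext
    rw [Units.val_pow_eq_pow_val]
    exact th_pow p
  · intro h
    have h1 := congrArg Units.val h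
    have h2 : th p = 1 := h1
    apply pi_ne_zero (p := p)
    unfold pi
    rw [h2, sub_self]

theorem card_mainline (i : ℕ) (hi : 1 ≤ i) : Nat.card (mainline p i) = p ^ i := by
  show Nat.card (Multiplicative (OO p ⧸ PP p ^ (i - 1)) ⋊[mainPhi p i] Pg p) = p ^ i
  rw [SemidirectProduct.card, card_Pg0]
  have h : Nat.card (Multiplicative (OO p ⧸ PP p ^ (i - 1))) = p ^ (i - 1) := card_quot (i - 1)
  rw [h, ← pow_succ]
  congr 1
  omega

end Pool.Agent.helper40.FR
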