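import Pool.Agent.helper95.FR.Spec

set_option autoImplicit false

namespace Pool.Agent.helper95.FR

open scoped commutatorElement

universe u

lemma IMC_conj {G : Type u} [Group G] (x g z : G) (hz : z ∈ NC (⊤ : Subgroup G) x) : g * z * g⁻¹ ∈ NC (⊤ : Subgroup G) x := by
  unfold NC at hz ⊢
  induction hz using Subgroup.closure_induction with
  | mem y hy =>
    obtain ⟨h, _, rfl⟩ := hy
    exact Subgroup.subset_closure ⟨g * h, Subgroup.mem_top _, by group⟩
  | one => simp
  | mul a b _ _ ha hb =>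
    have h : g * (a * b) * g⁻¹ = (g * a * g⁻¹) * (g * b * g⁻¹) := by group
    rw [h]
    exact Subgroup.mul_mem _ ha hb
  | inv a _ ha =>
    have h : g * a⁻¹ * g⁻¹ = (g * a * g⁻¹)⁻¹ := by group
    rw [h]
    exact Subgroup.inv_mem _ ha

theorem IMC : IMC_stmt.{u} := by
  intro G _ x
  refine ⟨?_, ?_, ?_⟩
  · intro f z hz
    have hle : NC (⊤ : Subgroup G) x ≤ (NC (⊤ : Subgroup G) (f x)).comap f := by
      unfold NC
      rw [Subgroup.closure_le]
      rintro y ⟨g, _, rfl⟩
      rw [SetLike.mem_coe, Subgroup.mem_comap]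
      exact Subgroup.subset_closure ⟨f g, Subgroup.mem_top _, by simp⟩
    exact hle hz
  · intro C hC hx
    unfold NC
    rw [Subgroup.closure_le]
    rintro y ⟨g, _, rfl⟩
    exact hC.conj_mem x hx g
  · intro v hv w hw
    unfold NC at hw
    induction hw using Subgroup.closure_induction with
    | mem y hy =>
      obtain ⟨g, _, rfl⟩ := hy
      intro z hz
      have h1 := IMC_conj x g⁻¹ z hz
      have h2 := hv _ h1
      have h3 : g * v * g⁻¹ * z = g * (v * (g⁻¹ * z * g⁻¹⁻¹)) * g⁻¹ := by group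
      have h4 : z * (g * v * g⁻¹) = g * ((g⁻¹ * z * g⁻¹⁻¹) * v) * g⁻¹ := by group
      rw [h3, h4, h2]
    | one => intro z _; simp
    | mul a b _ _ ha hb =>
      intro z hz
      rw [mul_assoc, hb z hz, ← mul_assoc, ha z hz, mul_assoc]
    | inv a _ ha =>
      intro z hz
      have h := ha z hz
      have h5 : a⁻¹ * z = a⁻¹ * (z * a) * a⁻¹ := by group
      rw [h5, ← h]
      group

end Pool.Agent.helper95.FR
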