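import Mathlib

/-!
# The ring `𝒪 = ℤ_p[θ]`
-/

namespace Pool.Agent.helper40.FR

open Polynomial Finset

variable (p : ℕ) [hp : Fact p.Prime]

/-- The ring `𝒪 = ℤ_p[θ]`, where `θ` is a primitive `p`-th root of unity: the ring of integers of
`ℚ_p(θ)`. -/
abbrev OO : Type := AdjoinRoot (cyclotomic p ℤ_[p])

/-- The root of unity `θ`. -/
noncomputable def th : OO p := AdjoinRoot.root _

/-- The uniformiser `π = θ - 1`. -/
noncomputable def pi : OO p := th p - 1

/-- The maximal ideal `𝔭 = (θ - 1)` of `𝒪`. -/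
noncomputable def PP : Ideal (OO p) := Ideal.span {pi p}

theorem th_eq : th p = 1 + pi p := by unfold pi; ring

theorem geom : ∑ i ∈ range p, th p ^ i = 0 := by
  have h1 : AdjoinRoot.mk (cyclotomic p ℤ_[p]) (cyclotomic p ℤ_[p]) = 0 := AdjoinRoot.mk_self
  conv at h1 => lhs; arg 2; rw [cyclotomic_prime]
  rw [map_sum] at h1
  rw [← h1]
  refine Finset.sum_congr rfl fun i _ => ?_
  rw [map_pow, AdjoinRoot.mk_X]; rfl

theorem th_pow : th p ^ p = 1 := by
  have h := geom_sum_mul (th p) p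
  rw [geom, zero_mul] at h
  exact (sub_eq_zero.1 h.symm)

/-- `π ^ (p-1) + p π ^ (p-2) + ... + p = 0`. -/
theorem geom_pi : ∑ k ∈ range p, (p.choose (k + 1) : OO p) * pi p ^ k = 0 := by
  have h1 := congrArg (fun f : ℤ_[p][X] => f.aeval (pi p)) (geom_sum_X_comp_X_add_one_eq_sum
    (R := ℤ_[p]) p)
  simp only [aeval_comp, map_sum, map_pow, aeval_X, map_add, map_one, map_mul, map_natCast] at h1
  rw [← h1]
  have h2 : pi p + 1 = th p := by unfold pi; ring
  rw [h2, geom]

/-- The residue map. -/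
noncomputable def kap : OO p →+* ZMod p := AdjoinRoot.lift (PadicInt.toZMod) 1 (by
  rw [eval₂_eq_eval_map, map_cyclotomic, eval_one_cyclotomic_prime]
  exact CharP.cast_eq_zero (ZMod p) p)

variable {p}

theorem kap_th : kap p (th p) = 1 := AdjoinRoot.lift_root _

theorem kap_pi : kap p (pi p) = 0 := by
  unfold pi
  rw [map_sub, kap_th, map_one, sub_self]

theorem kap_algebraMap (a : ℤ_[p]) : kap p (algebraMap ℤ_[p] (OO p) a) = PadicInt.toZMod a :=
  AdjoinRoot.lift_of _

theorem kap_smul (a : ℤ_[p]) (x : OO p) : kap p (a • x) = PadicInt.toZMod a * kap p x := by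
  rw [Algebra.smul_def, map_mul, kap_algebraMap]

theorem exists_add (x : OO p) : ∃ a : ℤ_[p], ∃ y : OO p, x = algebraMap _ _ a + pi p * y := by
  obtain ⟨f, rfl⟩ := AdjoinRoot.mk_surjective x
  obtain ⟨g, hg⟩ := (X_sub_C_dvd_sub_C_eval : X - C 1 ∣ f - C (f.eval 1))
  refine ⟨f.eval 1, AdjoinRoot.mk _ g, ?_⟩
  have h := congrArg (AdjoinRoot.mk (cyclotomic p ℤ_[p])) hg
  rw [map_sub, map_mul, map_sub, AdjoinRoot.mk_X, AdjoinRoot.mk_C, AdjoinRoot.mk_C, map_one,
    sub_eq_iff_eq_add] at h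
  rw [h, add_comm]; rfl

theorem kap_surj (t : ZMod p) : ∃ a : ℕ, kap p (a : OO p) = t := by
  refine ⟨t.val, ?_⟩
  rw [map_natCast, ZMod.natCast_zmod_val]

theorem pi_dvd_p : pi p ∣ (p : OO p) := by
  have h := geom_pi p
  have h3 : range p = range (p - 1 + 1) := by congr 1; have := hp.out.pos; omega
  rw [h3, Finset.sum_range_succ', pow_zero, mul_one, zero_add, Nat.choose_one_right] at h
  rw [eq_neg_of_add_eq_zero_right h]
  refine (dvd_neg).2 (Finset.dvd_sum fun i _ => ?_)
  exact Dvd.dvd.mul_left (dvd_pow_self _ (Nat.succ_ne_zero i)) _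

theorem kap_eq_zero_iff (x : OO p) : kap p x = 0 ↔ pi p ∣ x := by
  constructor
  · intro h
    obtain ⟨a, y, rfl⟩ := exists_add x
    rw [map_add, map_mul, kap_pi, zero_mul, add_zero, kap_algebraMap] at h
    have h1 : a ∈ RingHom.ker (PadicInt.toZMod (p := p)) := h
    rw [PadicInt.ker_toZMod, PadicInt.maximalIdeal_eq_span_p, Ideal.mem_span_singleton] at h1
    obtain ⟨b, rfl⟩ := h1
    refine dvd_add ?_ (dvd_mul_right _ _)
    rw [map_mul, map_natCast]
    exact Dvd.dvd.mul_right pi_dvd_p _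
  · rintro ⟨y, rfl⟩
    rw [map_mul, kap_pi, zero_mul]

/-- `π ^ (p-1) = - p η` with `η` a principal unit. -/
theorem exists_eta : ∃ η : OO p, pi p ^ (p - 1) = -(p : OO p) * η ∧ kap p η = 1 := by
  obtain ⟨k, hk⟩ : ∃ k, p = k + 1 := ⟨p - 1, by have := hp.out.pos; omega⟩
  have h := geom_pi p
  have h1 : ∀ i ∈ range (p - 1), (p.choose (i + 1) : OO p) * pi p ^ i =
      (p : OO p) * (((p.choose (i + 1) / p : ℕ) : OO p) * pi p ^ i) := by
    intro i hi
    have h2 : p ∣ p.choose (i + 1) :=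
      hp.out.dvd_choose_self (by omega) (by have := mem_range.1 hi; omega)
    rw [← mul_assoc, ← Nat.cast_mul, Nat.mul_div_cancel' h2]
  have h3 : range p = range (p - 1 + 1) := by congr 1; omega
  rw [h3, Finset.sum_range_succ, Finset.sum_congr rfl h1, ← Finset.mul_sum,
    show p - 1 + 1 = p by omega, Nat.choose_self, Nat.cast_one, one_mul] at h
  refine ⟨∑ i ∈ range (p - 1), ((p.choose (i + 1) / p : ℕ) : OO p) * pi p ^ i, ?_, ?_⟩
  · rw [neg_mul]
    exact eq_neg_of_add_eq_zero_right h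
  · rw [map_sum, Finset.sum_eq_single 0]
    · rw [pow_zero, mul_one, zero_add, Nat.choose_one_right, Nat.div_self hp.out.pos,
        Nat.cast_one, map_one]
    · intro i _ hi
      rw [map_mul, map_pow, kap_pi, zero_pow hi, mul_zero]
    · intro h0
      exfalso
      apply h0
      rw [mem_range]
      have := hp.out.two_le
      omega

instance : Module.Finite ℤ_[p] (OO p) := (cyclotomic.monic p ℤ_[p]).finite_adjoinRoot

instance : Module.Free ℤ_[p] (OO p) := (cyclotomic.monic p ℤ_[p]).free_adjoinRoot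

instance : Nontrivial (OO p) :=
  ⟨0, 1, fun h => by have := congrArg (kap p) h; rw [map_zero, map_one] at this; exact zero_ne_one this⟩

theorem PP_isMaximal : (PP p).IsMaximal := by
  have h : PP p = RingHom.ker (kap p) := by
    ext x
    rw [RingHom.mem_ker, kap_eq_zero_iff]
    exact Ideal.mem_span_singleton
  rw [h]
  refine RingHom.ker_isMaximal_of_surjective _ fun t => ?_
  obtain ⟨a, ha⟩ := kap_surj t
  exact ⟨a, ha⟩

instance : IsLocalRing (OO p) := by
  refine IsLocalRing.of_unique_max_ideal ⟨PP p, PP_isMaximal, fun M hM => ?_⟩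
  have h1 : (M.comap (algebraMap ℤ_[p] (OO p))).IsMaximal :=
    Ideal.isMaximal_comap_of_isIntegral_of_isMaximal M
  have h2 : (M.comap (algebraMap ℤ_[p] (OO p))) = IsLocalRing.maximalIdeal ℤ_[p] :=
    IsLocalRing.eq_maximalIdeal h1
  have h3 : (p : ℤ_[p]) ∈ M.comap (algebraMap ℤ_[p] (OO p)) := by
    rw [h2, PadicInt.maximalIdeal_eq_span_p]
    exact Ideal.mem_span_singleton_self _
  have h4 : (p : OO p) ∈ M := by
    rw [Ideal.mem_comap, map_natCast] at h3
    exact h3
  obtain ⟨η, hη, _⟩ := exists_eta (p := p)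
  have h5 : pi p ∈ M := by
    apply hM.isPrime.mem_of_pow_mem (p - 1)
    rw [hη]
    exact M.mul_mem_right _ (neg_mem h4)
  exact (PP_isMaximal.eq_of_le hM.ne_top ((Ideal.span_singleton_le_iff_mem M).2 h5)).symm

theorem isUnit_iff (x : OO p) : IsUnit x ↔ kap p x ≠ 0 := by
  constructor
  · intro h
    exact (h.map (kap p)).ne_zero
  · intro h
    by_contra h1
    have h2 : x ∈ IsLocalRing.maximalIdeal (OO p) := (IsLocalRing.mem_maximalIdeal x).2 h1
    rw [← IsLocalRing.eq_maximalIdeal (PP_isMaximal (p := p))] at h2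
    exact h ((kap_eq_zero_iff x).2 (Ideal.mem_span_singleton.1 h2))

/-- `p = ε π ^ (p-1)` with `ε` a unit, congruent to `-1`. -/
theorem exists_eps : ∃ ε : OO p, IsUnit ε ∧ kap p ε = -1 ∧ (p : OO p) = ε * pi p ^ (p - 1) := by
  obtain ⟨η, hη, hη1⟩ := exists_eta (p := p)
  have hu : IsUnit η := (isUnit_iff η).2 (by rw [hη1]; exact one_ne_zero)
  obtain ⟨u, rfl⟩ := hu
  refine ⟨-((u⁻¹ : (OO p)ˣ) : OO p), (Units.isUnit _).neg, ?_, ?_⟩
  · have h1 : kap p ((u⁻¹ : (OO p)ˣ) : OO p) * kap p (u : OO p) = 1 := by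
      rw [← map_mul, Units.inv_mul, map_one]
    rw [hη1, mul_one] at h1
    rw [map_neg, h1]
  · rw [hη]
    have : -((u⁻¹ : (OO p)ˣ) : OO p) * (-(p : OO p) * u) = p * (((u⁻¹ : (OO p)ˣ) : OO p) * u) := by
      ring
    rw [this, Units.inv_mul, mul_one]

theorem p_smul_inj {x : OO p} (h : (p : OO p) * x = 0) : x = 0 := by
  have h1 : (p : ℤ_[p]) • x = 0 := by
    rw [Algebra.smul_def, map_natCast, h]
  rcases smul_eq_zero.1 h1 with h2 | h2
  · exact absurd h2 (by exact_mod_cast hp.out.ne_zero)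
  · exact h2

theorem pi_mul_inj {x : OO p} (h : pi p * x = 0) : x = 0 := by
  obtain ⟨ε, _, _, hε⟩ := exists_eps (p := p)
  apply p_smul_inj
  obtain ⟨k, hk⟩ : ∃ k, p - 1 = k + 1 := ⟨p - 2, by have := hp.out.two_le; omega⟩
  rw [hε, hk, pow_succ]
  calc ε * (pi p ^ k * pi p) * x = ε * pi p ^ k * (pi p * x) := by ring
    _ = 0 := by rw [h, mul_zero]

theorem pi_pow_inj (n : ℕ) {x : OO p} (h : pi p ^ n * x = 0) : x = 0 := by
  induction n with
  | zero => rwa [pow_zero, one_mul] at h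
  | succ n ih =>
    rw [pow_succ', mul_assoc] at h
    exact ih (pi_mul_inj h)

theorem pi_pow_cancel (n : ℕ) {x y : OO p} (h : pi p ^ n * x = pi p ^ n * y) : x = y := by
  rw [← sub_eq_zero]
  apply pi_pow_inj n
  rw [mul_sub, h, sub_self]

theorem mem_PP_pow {n : ℕ} {x : OO p} : x ∈ PP p ^ n ↔ pi p ^ n ∣ x := by
  unfold PP
  rw [Ideal.span_singleton_pow, Ideal.mem_span_singleton]

theorem pi_pow_dvd {m n : ℕ} {x : OO p} (h : pi p ^ (m + n) ∣ pi p ^ m * x) : pi p ^ n ∣ x := by
  obtain ⟨y, hy⟩ := h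
  rw [pow_add, mul_assoc] at hy
  exact ⟨y, pi_pow_cancel m hy⟩

/-- Elements outside `𝔭 ^ n` are units times a smaller power of `π`. -/
theorem exists_unit {n : ℕ} {x : OO p} (h : ¬ pi p ^ n ∣ x) :
    ∃ k < n, ∃ u : OO p, IsUnit u ∧ x = pi p ^ k * u := by
  induction n with
  | zero => exact absurd (by rw [pow_zero]; exact one_dvd _) h
  | succ n ih =>
    by_cases h1 : pi p ^ n ∣ x
    · obtain ⟨u, rfl⟩ := h1
      refine ⟨n, Nat.lt_succ_self n, u, (isUnit_iff u).2 fun h2 => h ?_, rfl⟩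
      rw [pow_succ]
      exact mul_dvd_mul_left _ ((kap_eq_zero_iff u).1 h2)
    · obtain ⟨k, hk, u, hu, hx⟩ := ih h1
      exact ⟨k, by omega, u, hu, hx⟩

/-- The powers `1, π, ..., π ^ (p-2)` generate `𝒪`. -/
theorem mem_span_pi (x : OO p) :
    x ∈ Submodule.span ℤ_[p] {y | ∃ i < p - 1, y = pi p ^ i} := by
  set S := Submodule.span ℤ_[p] {y | ∃ i < p - 1, y = pi p ^ i}
  have h2 := hp.out.two_le
  have h0 : (1 : OO p) ∈ S := Submodule.subset_span ⟨0, by omega, (pow_zero _).symm⟩
  have hpi : ∀ y ∈ S, pi p * y ∈ S := by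
    intro y hy
    refine Submodule.span_induction (p := fun y _ => pi p * y ∈ S) ?_ ?_ ?_ ?_ hy
    · rintro _ ⟨i, hi, rfl⟩
      rw [← pow_succ']
      by_cases h3 : i + 1 < p - 1
      · exact Submodule.subset_span ⟨i + 1, h3, rfl⟩
      · have h4 : i + 1 = p - 1 := by omega
        have h := geom_pi p
        have h5 : range p = range (p - 1 + 1) := by congr 1; omega
        rw [h5, Finset.sum_range_succ, show p - 1 + 1 = p by omega, Nat.choose_self,
          Nat.cast_one, one_mul] at h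
        rw [h4, eq_neg_of_add_eq_zero_right h]
        refine neg_mem (sum_mem fun k hk => ?_)
        have h6 : (p.choose (k + 1) : OO p) * pi p ^ k =
            (p.choose (k + 1) : ℤ_[p]) • pi p ^ k := by
          rw [Algebra.smul_def, map_natCast]
        rw [h6]
        exact Submodule.smul_mem _ _ (Submodule.subset_span ⟨k, mem_range.1 hk, rfl⟩)
    · rw [mul_zero]; exact zero_mem _
    · intro a b _ _ ha hb; rw [mul_add]; exact add_mem ha hb
    · intro r a _ ha; rw [mul_smul_comm]; exact Submodule.smul_mem _ _ ha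
  have hth : ∀ n : ℕ, th p ^ n ∈ S := by
    intro n
    induction n with
    | zero => rw [pow_zero]; exact h0
    | succ n ih => rw [pow_succ', th_eq, add_mul, one_mul, ← th_eq]; exact add_mem ih (hpi _ ih)
  obtain ⟨f, rfl⟩ := AdjoinRoot.mk_surjective x
  induction f using Polynomial.induction_on' with
  | add f g hf hg => rw [map_add]; exact add_mem hf hg
  | monomial n a =>
    rw [← C_mul_X_pow_eq_monomial, map_mul, AdjoinRoot.mk_C, map_pow, AdjoinRoot.mk_X]
    have h6 : (AdjoinRoot.of (cyclotomic p ℤ_[p])) a * AdjoinRoot.root (cyclotomic p ℤ_[p]) ^ n =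
        a • th p ^ n := by
      rw [Algebra.smul_def]; rfl
    rw [h6]
    exact Submodule.smul_mem _ _ (hth n)

/-- The index of `𝔭 ^ n` is `p ^ n`. -/
theorem card_quot (n : ℕ) : Nat.card (OO p ⧸ PP p ^ n) = p ^ n := by
  have h1 : ∀ n : ℕ, (PP p ^ n).toAddSubgroup.index = p ^ n := by
    intro n
    induction n with
    | zero =>
      rw [pow_zero, pow_zero, Ideal.one_eq_top]
      exact AddSubgroup.index_top
    | succ n ih =>
      let μ : OO p →+ OO p := AddMonoidHom.mulLeft (pi p ^ n)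
      have hμ : Function.Injective μ := fun x y h => pi_pow_cancel n h
      have e1 : (PP p ^ n).toAddSubgroup = (⊤ : AddSubgroup (OO p)).map μ := by
        ext x
        rw [Submodule.mem_toAddSubgroup, mem_PP_pow, AddSubgroup.mem_map]
        constructor
        · rintro ⟨y, rfl⟩; exact ⟨y, trivial, rfl⟩
        · rintro ⟨y, _, rfl⟩; exact ⟨y, rfl⟩
      have e2 : (PP p ^ (n + 1)).toAddSubgroup = (kap p).toAddMonoidHom.ker.map μ := by
        ext x
        rw [Submodule.mem_toAddSubgroup, mem_PP_pow, AddSubgroup.mem_map]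
        constructor
        · rintro ⟨y, rfl⟩
          refine ⟨pi p * y, ?_, ?_⟩
          · exact (kap_eq_zero_iff _).2 (dvd_mul_right _ _)
          · show pi p ^ n * (pi p * y) = _
            rw [pow_succ, mul_assoc]
        · rintro ⟨y, hy, rfl⟩
          obtain ⟨z, rfl⟩ := (kap_eq_zero_iff y).1 hy
          refine ⟨z, ?_⟩
          show pi p ^ n * (pi p * z) = _
          rw [pow_succ, mul_assoc]
      have e3 : (kap p).toAddMonoidHom.ker.index = p := by
        rw [AddSubgroup.index_ker, AddMonoidHom.range_eq_top.2, Nat.card_congr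
          (AddSubgroup.topEquiv (G := ZMod p)).toEquiv, Nat.card_zmod]
        intro t
        obtain ⟨a, ha⟩ := kap_surj t
        exact ⟨a, ha⟩
      have e4 : ((PP p ^ (n + 1)).toAddSubgroup).relIndex ((PP p ^ n).toAddSubgroup) = p := by
        rw [e1, e2, AddSubgroup.relIndex_map_map_of_injective _ _ hμ, AddSubgroup.relIndex_top_right,
          e3]
      have e5 : (PP p ^ (n + 1)).toAddSubgroup ≤ (PP p ^ n).toAddSubgroup :=
        fun x hx => Ideal.pow_le_pow_right (Nat.le_succ n) hx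
      rw [← AddSubgroup.relIndex_mul_index e5, e4, ih, pow_succ, mul_comm]
  exact h1 n

end Pool.Agent.helper40.FR
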