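import Mathlib

/-!
# Frames and branches of the graph of finite `p`-groups of maximal class: the definitions used in
the statement

The definitions are stated for a commutative `ℤ_p`-algebra `O` with an element `θ`. They are used
for `O = 𝒪 = ℤ_p[X] / (Φ_p)`, the ring of integers of `K = ℚ_p(θ)`, and `θ` the class of `X`, a
primitive `p`-th root of unity. The group `P = ⟨θ⟩` has order `p`.
-/

namespace Pool.Agent.helper40.FS

variable (p : ℕ) [Fact p.Prime]

/-! ## The Lazard correspondence -/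

section

variable {L : Type} [AddCommGroup L] [Module ℤ_[p] L]

/-- The exponential series up to degree `p - 1` in the free associative ring `ℤ_p⟨X, Y⟩`. -/
noncomputable def ex (u : MonoidAlgebra ℤ_[p] (FreeMonoid Bool)) :
    MonoidAlgebra ℤ_[p] (FreeMonoid Bool) :=
  ∑ k ∈ Finset.range p, Ring.inverse (k.factorial : ℤ_[p]) • u ^ k

/-- `log (e^X e^Y)` in the free associative ring `ℤ_p⟨X, Y⟩`; only its words of length at most
`p - 1` are used. -/
noncomputable def logexp : MonoidAlgebra ℤ_[p] (FreeMonoid Bool) :=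
  ∑ k ∈ Finset.Ico 1 p, ((-1) ^ (k + 1) * Ring.inverse (k : ℤ_[p])) •
    (ex p (MonoidAlgebra.of _ _ (FreeMonoid.of false)) *
      ex p (MonoidAlgebra.of _ _ (FreeMonoid.of true)) - 1) ^ k

/-- The left-normed bracket `[...[[x_1, x_2], x_3], ..., x_n]`. -/
def lnb {L : Type} [AddCommGroup L] (br : L → L → L) : List L → L
  | [] => 0
  | x :: l => l.foldl br x

/-- The Lie ring with bracket `br` has class at most `c`: all left-normed brackets of `c + 1`
elements vanish. -/
def ClassLE {L : Type} [AddCommGroup L] (br : L → L → L) (c : ℕ) : Prop :=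
  ∀ l : List L, l.length = c + 1 → lnb br l = 0

/-- The Baker-Campbell-Hausdorff product of a Lie ring of class at most `p - 1`, in Dynkin's form:
each word `w` of `log (e^X e^Y)` is replaced by its left-normed bracket at `X = x`, `Y = y`,
divided by the length of `w`. -/
noncomputable def bch (br : L → L → L) (x y : L) : L :=
  ∑ k ∈ Finset.Ico 1 p, ∑ w : Fin k → Bool,
    ((logexp p).coeff (FreeMonoid.ofList (List.ofFn w)) * Ring.inverse (k : ℤ_[p])) •
      lnb br (List.ofFn fun i => if w i then y else x)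

end

section

variable {O : Type} [CommRing O] [Algebra ℤ_[p] O] (θ : O) {M : Type} [AddCommGroup M] [Module O M]

/-- `G` is isomorphic to the semidirect product `M ⋊ P`, where the operation of the group `M` is
`op` and `P` acts by multiplication: the pairs `(a, s)`, where `s` in `ℤ / p` stands for `θ^s`,
multiplied by `(a, s) (b, t) = (op a (θ^s b), s + t)`. -/
def IsSemi (op : M → M → M) (G : Type) [Group G] : Prop :=
  ∃ e : G ≃ M × ZMod p, ∀ g h : G,
    e (g * h) = (op (e g).1 (θ ^ (e g).2.val • (e h).1), (e g).2 + (e h).2)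

variable [Module ℤ_[p] M]

/-- `γ` is a `P`-equivariant homomorphism `M ∧ M → M`, i.e. an alternating `ℤ_p`-bilinear map
`γ(x ∧ y) = γ x y` which commutes with `θ`. -/
structure IsAlt (γ : M → M → M) : Prop where
  add_left : ∀ x y z, γ (x + y) z = γ x z + γ y z
  add_right : ∀ x y z, γ x (y + z) = γ x y + γ x z
  smul_left : ∀ (a : ℤ_[p]) x y, γ (a • x) y = a • γ x y
  alt : ∀ x, γ x x = 0
  equi : ∀ x y, γ (θ • x) (θ • y) = θ • γ x y

/-- `G` is isomorphic to the semidirect product with `P` of the group of the Lie ring `M / N` under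
the Lazard correspondence; the bracket is `[a + N, b + N] = γ(a ∧ b) + N`, and the class is at most
`p - 1`. -/
def IsLaz [IsScalarTower ℤ_[p] O M] (γ : M → M → M) (N : Submodule O M) (G : Type) [Group G] :
    Prop :=
  ∃ br : M ⧸ N → M ⧸ N → M ⧸ N,
    (∀ a b : M, br (Submodule.Quotient.mk a) (Submodule.Quotient.mk b) =
      Submodule.Quotient.mk (γ a b)) ∧
    ClassLE br (p - 1) ∧ IsSemi p θ (bch p br) G

end

section

variable {O : Type} [CommRing O] [Algebra ℤ_[p] O] (θ : O)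

/-! ## The `p`-adic side -/

omit [Algebra ℤ_[p] O] in
/-- `𝔭 ^ t`, where `𝔭 = (θ - 1)` is the maximal ideal of `𝒪`. -/
def P (t : ℕ) : Ideal O := Ideal.span {θ - 1} ^ t

/-- `γ` is in `Ĥ_j`, the set of surjective `P`-equivariant homomorphisms
`𝔭^j ∧ 𝔭^j → 𝔭^(2j+1)`: the values of `γ` span `𝔭^(2j+1)`. -/
def IsHat (j : ℕ) (γ : P θ j → P θ j → P θ j) : Prop :=
  IsAlt p θ γ ∧
    Submodule.span ℤ_[p] {z : O | ∃ x y, γ x y = z} = (P θ (2 * j + 1)).restrictScalars ℤ_[p]

/-- The ideal `J_j(γ)` generated by all `γ(γ(x ∧ y) ∧ z) + γ(γ(y ∧ z) ∧ x) + γ(γ(z ∧ x) ∧ y)`. -/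
def J {j : ℕ} (γ : P θ j → P θ j → P θ j) : Ideal O :=
  Ideal.span {w | ∃ x y z, w = γ (γ x y) z + γ (γ y z) x + γ (γ z x) y}

/-- `G` is isomorphic to `S_{j,m}(γ) = G_{j,m}(γ) ⋊ P`, where `j ≤ m`, `J_j(γ) ⊆ 𝔭^m`, the Lie
ring `L_{j,m}(γ) = 𝔭^j / 𝔭^m` with the bracket `[a, b] = γ(a ∧ b) + 𝔭^m` has class at most
`p - 1` and `G_{j,m}(γ)` is its group under the Lazard correspondence. -/
def IsS {j : ℕ} (γ : P θ j → P θ j → P θ j) (m : ℕ) (G : Type) [Group G] : Prop :=
  j ≤ m ∧ J θ γ ≤ P θ m ∧ IsLaz p θ γ ((P θ m).submoduleOf (P θ j)) G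

/-- `G` is isomorphic to the mainline group `S_i = 𝒪 / 𝔭^(i-1) ⋊ P`, of order `p^i`. -/
def IsMain (i : ℕ) (G : Type) [Group G] : Prop :=
  IsSemi p θ (fun a b : O ⧸ P θ (i - 1) => a + b) G

/-! ## Groups of maximal class, branches and frames -/

omit [Fact p.Prime] in
/-- A finite `p`-group of maximal class: order `p ^ n`, `n ≥ 2`, and class `n - 1`. -/
def MaxClass (G : Type) [Group G] : Prop :=
  ∃ n, 2 ≤ n ∧ Nat.card G = p ^ n ∧ Group.nilpotencyClass G = n - 1

omit [Fact p.Prime] in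
/-- `G → H` is an edge of `𝒢(p)`. -/
def Edge (G H : GrpCat.{0}) : Prop :=
  MaxClass p G ∧ MaxClass p H ∧ Nonempty ((H ⧸ Subgroup.center H) ≃* G)

/-- The branch `ℬ_i`: the descendants of `S_i` which are not descendants of `S_{i+1}`. -/
def Branch (i : ℕ) (G : GrpCat.{0}) : Prop :=
  MaxClass p G ∧ (∃ S : GrpCat.{0}, IsMain p θ i S ∧ Relation.ReflTransGen (Edge p) S G) ∧
    ¬ ∃ S : GrpCat.{0}, IsMain p θ (i + 1) S ∧ Relation.ReflTransGen (Edge p) S G

/-- The frame `ℱ_i`: the groups of `ℬ_i` isomorphic to some `S_{i-2,m}(γ)`. -/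
def Frame (i : ℕ) (G : GrpCat.{0}) : Prop :=
  Branch p θ i G ∧ ∃ γ : P θ (i - 2) → P θ (i - 2) → P θ (i - 2), IsHat p θ (i - 2) γ ∧
    ∃ m, IsS p θ γ m G

/-- `G` is a leaf of the frame `ℱ_i`: a vertex of `ℱ_i` with no immediate descendant in `ℱ_i`. -/
def IsLeaf (i : ℕ) (G : GrpCat.{0}) : Prop :=
  Frame p θ i G ∧ ∀ H : GrpCat.{0}, Frame p θ i H → ¬ Edge p G H

/-- `G` is terminal in the branch `ℬ_i`: it has no immediate descendant in `ℬ_i`. -/
def IsTerminal (i : ℕ) (G : GrpCat.{0}) : Prop :=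
  Branch p θ i G ∧ ∀ H : GrpCat.{0}, Branch p θ i H → ¬ Edge p G H

end

end Pool.Agent.helper40.FS
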